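import Pool.Agent.Helper13.TW.Comp
import Pool.Agent.Helper27.BO.Main

/-!
# TW: splitting a family in two tight parts
-/

set_option autoImplicit false

open scoped BigOperators

namespace Helper13.TW

open Finset

section origin

variable {ι G : Type} [DecidableEq ι] [Group G] [LinearOrder G] [MulLeftMono G] [MulRightMono G]
variable {d : ℕ}

/-- An origin from which the labels are seen with the contents `w`. -/
theorem exists_origin (B : Finset ι) (a : ι → Fin d → G) (w : Fin d → ℕ) (E : Finset (Fin d))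
    (hw : ∑ c, w c = B.card) (hE : ∀ c, w c ≠ 0 → c ∈ E) (hd : 1 ≤ d) :
    ∃ (X : Fin d → G) (Z : ι → G) (g : ι → Fin d),
      (∀ j ∈ B, g j ∈ E ∧ X (g j) = Z j * a j (g j) ∧ ∀ c ∈ E, X c ≤ Z j * a j c) ∧
      ∀ c, (B.filter (fun j => g j = c)).card = w c := by
  classical
  obtain ⟨m, hm⟩ : ∃ m, m = B.card := ⟨_, rfl⟩
  let φ : Fin m ≃ B := (finCongr hm).trans B.equivFin.symm
  obtain ⟨f0, h1, h2, h3⟩ := Pool.Agent.Helper27.BO.exists_flow (n := m) (fun _ => E)
    (fun _ => 1) w (by rw [hw, hm]; simp) (by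
      intro J
      rcases J.eq_empty_or_nonempty with rfl | ⟨j, hj⟩
      · simp
      · have e1 : J.biUnion (fun _ : Fin m => E) = E := by
          ext c
          simp only [Finset.mem_biUnion]
          exact ⟨fun ⟨_, _, h⟩ => h, fun h => ⟨j, hj, h⟩⟩
        rw [e1]
        have e2 : ∑ c ∈ E, w c = ∑ c, w c := by
          refine Finset.sum_subset (Finset.subset_univ _) fun c _ hc => ?_
          by_contra hcon
          exact hc (hE c hcon)
        rw [e2, hw, ← hm, Finset.sum_const, smul_eq_mul, mul_one]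
        simpa using Finset.card_le_univ J)
  obtain ⟨X, Z, f, k1, k2, k3, k4⟩ := Pool.Agent.Helper27.BO.duality
    (fun j : Fin m => a (φ j)) (fun _ => E) (fun _ => 1) w f0 h1 h2 h3
  have hex : ∀ j, ∃ c, f j c ≠ 0 := by
    intro j
    by_contra hcon
    push Not at hcon
    have := k3 j
    rw [Finset.sum_eq_zero fun c _ => hcon c] at this
    omega
  choose h hh using hex
  have hf : ∀ j c, f j c = if h j = c then 1 else 0 := by
    intro j c
    have e1 := k3 j
    rw [← Finset.add_sum_erase _ _ (Finset.mem_univ (h j))] at e1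
    have e2 := hh j
    split_ifs with hc
    · subst hc
      omega
    · have e3 : f j c ≤ ∑ x ∈ Finset.univ.erase (h j), f j x :=
        Finset.single_le_sum (f := fun x => f j x) (fun _ _ => Nat.zero_le _)
          (Finset.mem_erase.2 ⟨fun h => hc h.symm, Finset.mem_univ c⟩)
      omega
  obtain ⟨g, hg⟩ : ∃ g : ι → Fin d, ∀ j (hj : j ∈ B), g j = h (φ.symm ⟨j, hj⟩) :=
    ⟨fun j => if hj : j ∈ B then h (φ.symm ⟨j, hj⟩) else ⟨0, hd⟩, fun j hj => dif_pos hj⟩
  obtain ⟨Z', hZ'⟩ : ∃ Z' : ι → G, ∀ j (hj : j ∈ B), Z' j = Z (φ.symm ⟨j, hj⟩) :=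
    ⟨fun j => if hj : j ∈ B then Z (φ.symm ⟨j, hj⟩) else 1, fun j hj => dif_pos hj⟩
  refine ⟨X, Z', g, fun j hj => ?_, fun c => ?_⟩
  · rw [hg j hj, hZ' j hj]
    have e1 := hh (φ.symm ⟨j, hj⟩)
    have e2 := k2 _ _ e1
    have e3 : ((φ (φ.symm ⟨j, hj⟩) : B) : ι) = j := by rw [Equiv.apply_symm_apply]
    refine ⟨e2.1, ?_, fun c hc => ?_⟩
    · have := e2.2
      rwa [e3] at this
    · have := k1 (φ.symm ⟨j, hj⟩) c hc
      rwa [e3] at this
  · rw [← k4 c]
    simp only [hf, Finset.sum_boole, Nat.cast_id]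
    symm
    refine Finset.card_bij (fun j _ => ((φ j : B) : ι)) (fun j hj => ?_) (fun i _ j _ hij => ?_)
      (fun j hj => ?_)
    · rw [Finset.mem_filter] at hj ⊢
      refine ⟨(φ j).2, ?_⟩
      rw [hg _ (φ j).2]
      have : φ.symm ⟨((φ j : B) : ι), (φ j).2⟩ = j := by
        rw [show (⟨((φ j : B) : ι), (φ j).2⟩ : B) = φ j from rfl, Equiv.symm_apply_apply]
      rw [this]
      exact hj.2
    · exact φ.injective (Subtype.ext hij)
    · rw [Finset.mem_filter] at hj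
      refine ⟨φ.symm ⟨j, hj.1⟩, ?_, ?_⟩
      · rw [Finset.mem_filter]
        refine ⟨Finset.mem_univ _, ?_⟩
        rw [← hg j hj.1]
        exact hj.2
      · show ((φ (φ.symm ⟨j, hj.1⟩) : B) : ι) = j
        rw [Equiv.apply_symm_apply]

/-- A pattern moved to an origin, all choices strict. -/
theorem exists_centered (B : Finset ι) (u : ι → Fin d → ℕ) (hu : BOReal d B u)
    (w : Fin d → ℕ) (E : Finset (Fin d)) (hw : ∑ c, w c = B.card) (hE : ∀ c, w c ≠ 0 → c ∈ E)
    (hd : 1 ≤ d) :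
    ∃ (H : Type) (_ : Group H) (_ : LinearOrder H) (_ : MulLeftMono H) (_ : MulRightMono H)
      (b : ι → Fin d → H) (g : ι → ι → Fin d) (q : ι → Fin d),
      (∀ k ∈ B, ∀ j ∈ B, k ≠ j → ∀ c, c ≠ g k j →
        b k c * (b j c)⁻¹ < b k (g k j) * (b j (g k j))⁻¹) ∧
      (∀ k ∈ B, ∀ c, u k c = (B.filter (fun j => j ≠ k ∧ g k j = c)).card) ∧
      (∀ j ∈ B, q j ∈ E ∧ ∀ c ∈ E, c ≠ q j → b j (q j) < b j c) ∧
      ∀ c, (B.filter (fun j => q j = c)).card = w c := by
  classical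
  obtain ⟨G, i1, i2, i3, i4, a, g, ha, hg⟩ := hu
  obtain ⟨X, Z, q, hq, hqw⟩ := exists_origin B a w E hw hE hd
  refine ⟨G ×ₗ Multiplicative ℤ, inferInstance, inferInstance, inferInstance, inferInstance,
    fun j c => toLex (a j c * (X c)⁻¹, Multiplicative.ofAdd (if c = q j then (-1 : ℤ) else 0)), g,
    q, fun k hk j hj hkj c hc => ?_, hg, fun j hj => ?_, hqw⟩
  · rw [Prod.Lex.lt_iff]
    left
    show a k c * (X c)⁻¹ * (a j c * (X c)⁻¹)⁻¹ < a k (g k j) * (X (g k j))⁻¹ *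
      (a j (g k j) * (X (g k j))⁻¹)⁻¹
    rw [show a k c * (X c)⁻¹ * (a j c * (X c)⁻¹)⁻¹ = a k c * (a j c)⁻¹ by group,
      show a k (g k j) * (X (g k j))⁻¹ * (a j (g k j) * (X (g k j))⁻¹)⁻¹ =
        a k (g k j) * (a j (g k j))⁻¹ by group]
    exact ha k hk j hj hkj c hc
  · obtain ⟨h1, h2, h3⟩ := hq j hj
    refine ⟨h1, fun c hc hcq => ?_⟩
    rw [Prod.Lex.lt_iff]
    show a j (q j) * (X (q j))⁻¹ < a j c * (X c)⁻¹ ∨ (a j (q j) * (X (q j))⁻¹ = a j c * (X c)⁻¹ ∧
      Multiplicative.ofAdd (if q j = q j then (-1 : ℤ) else 0) <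
      Multiplicative.ofAdd (if c = q j then (-1 : ℤ) else 0))
    have e1 : a j (q j) * (X (q j))⁻¹ = (Z j)⁻¹ := by
      rw [h2]
      group
    have e2 : (Z j)⁻¹ ≤ a j c * (X c)⁻¹ := by
      have e3 := mul_le_mul_left (mul_le_mul_right (h3 c hc) (Z j)⁻¹) (X c)⁻¹
      rw [inv_mul_cancel_left] at e3
      rwa [mul_assoc, mul_inv_cancel, mul_one] at e3
    rw [e1]
    rcases e2.lt_or_eq with h | h
    · exact Or.inl h
    · refine Or.inr ⟨h, ?_⟩
      rw [if_pos rfl, if_neg hcq]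
      show (-1 : ℤ) < 0
      norm_num

end origin

section both

variable {ι : Type} [DecidableEq ι] {d : ℕ}

/-- **Two tight parts.** -/
theorem BOReal.both (A B : Finset ι) (hAB : Disjoint A B) (uA uB : ι → Fin d → ℕ)
    (hA : BOReal d A uA) (hB : BOReal d B uB) (wA wB : Fin d → ℕ)
    (hwA : ∑ c, wA c = B.card) (hwB : ∑ c, wB c = A.card) (hw : ∀ c, wA c = 0 ∨ wB c = 0)
    (hd : 1 ≤ d) (v : ι → Fin d → ℕ) (hvA : ∀ k ∈ A, ∀ c, v k c = uA k c + wA c)
    (hvB : ∀ k ∈ B, ∀ c, v k c = uB k c + wB c) : BOReal d (A ∪ B) v := by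
  classical
  obtain ⟨P, hP⟩ : ∃ P : Finset (Fin d), ∀ c, c ∈ P ↔ wA c ≠ 0 :=
    ⟨Finset.univ.filter fun c => wA c ≠ 0, fun c => by simp⟩
  obtain ⟨H1, i1, i2, i3, i4, b1, g1, q1, h1, h2, h3, h4⟩ :=
    exists_centered A uA hA wB Pᶜ hwB (fun c hc => by
      rw [Finset.mem_compl, hP]
      rcases hw c with h | h
      · exact fun h' => h' h
      · exact absurd h hc) hd
  obtain ⟨H2, j1, j2, j3, j4, b2, g2, q2, k1, k2, k3, k4⟩ :=
    exists_centered B uB hB wA P hwA (fun c hc => (hP c).2 hc) hd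
  have hBA : ∀ k ∈ B, k ∉ A := fun k hk hk' => Finset.disjoint_left.1 hAB hk' hk
  -- the colours
  obtain ⟨g, hg⟩ : ∃ g : ι → ι → Fin d, ∀ k j, g k j = if k ∈ A then (if j ∈ A then g1 k j else
      q2 j) else (if j ∈ A then q1 j else g2 k j) := ⟨_, fun _ _ => rfl⟩
  -- the macro positions
  let y : Bool → Fin d → Multiplicative ℤ := fun t c =>
    Multiplicative.ofAdd (if (t = true ↔ c ∈ P) then (1 : ℤ) else 0)
  let cl : ι → Bool := fun k => decide (k ∈ A)
  have hcl : ∀ k ∈ A, cl k = true := fun k hk => by simp [cl, hk]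
  have hcl' : ∀ k ∈ B, cl k = false := fun k hk => by simp [cl, hBA k hk]
  have hy1 : ∀ c, y true c * (y false c)⁻¹ = Multiplicative.ofAdd (if c ∈ P then (1 : ℤ) else -1) := by
    intro c
    show Multiplicative.ofAdd ((if (true = true ↔ c ∈ P) then (1 : ℤ) else 0) +
      -(if (false = true ↔ c ∈ P) then (1 : ℤ) else 0)) = _
    congr 1
    by_cases hc : c ∈ P <;> simp [hc]
  have hy2 : ∀ c, y false c * (y true c)⁻¹ = Multiplicative.ofAdd (if c ∈ P then (-1 : ℤ) else 1) := by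
    intro c
    show Multiplicative.ofAdd ((if (false = true ↔ c ∈ P) then (1 : ℤ) else 0) +
      -(if (true = true ↔ c ∈ P) then (1 : ℤ) else 0)) = _
    congr 1
    by_cases hc : c ∈ P <;> simp [hc]
  have hne : ∀ k ∈ A ∪ B, ∀ j ∈ A ∪ B, cl k ≠ cl j → (k ∈ A ∧ j ∈ B) ∨ (k ∈ B ∧ j ∈ A) := by
    intro k hk j hj hkj
    rcases Finset.mem_union.1 hk with h | h <;> rcases Finset.mem_union.1 hj with h' | h'
    · exact absurd ((hcl k h).trans (hcl j h').symm) hkj
    · exact Or.inl ⟨h, h'⟩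
    · exact Or.inr ⟨h, h'⟩
    · exact absurd ((hcl' k h).trans (hcl' j h').symm) hkj
  have hgAB : ∀ k ∈ A, ∀ j ∈ B, g k j = q2 j := fun k hk j hj => by
    rw [hg, if_pos hk, if_neg (hBA j hj)]
  have hgBA : ∀ k ∈ B, ∀ j ∈ A, g k j = q1 j := fun k hk j hj => by
    rw [hg, if_neg (hBA k hk), if_pos hj]
  have hgAA : ∀ k ∈ A, ∀ j ∈ A, g k j = g1 k j := fun k hk j hj => by
    rw [hg, if_pos hk, if_pos hj]
  have hgBB : ∀ k ∈ B, ∀ j ∈ B, g k j = g2 k j := fun k hk j hj => by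
    rw [hg, if_neg (hBA k hk), if_neg (hBA j hj)]
  refine composition (Γ := Multiplicative ℤ) (H := H1 ×ₗ H2) (A ∪ B) cl y
    (fun k c => if k ∈ A then toLex (b1 k c, 1) else toLex (1, b2 k c)) g ?_ ?_ ?_ ?_ v ?_
  · intro k hk j hj hkj c
    rcases hne k hk j hj hkj with ⟨hk, hj⟩ | ⟨hk, hj⟩
    · rw [hcl k hk, hcl' j hj, hy1, hy1, hgAB k hk j hj, if_pos (k3 j hj).1]
      show (if c ∈ P then (1 : ℤ) else -1) ≤ 1
      split_ifs <;> norm_num
    · rw [hcl' k hk, hcl j hj, hy2, hy2, hgBA k hk j hj,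
        if_neg (Finset.mem_compl.1 (h3 j hj).1)]
      show (if c ∈ P then (-1 : ℤ) else 1) ≤ 1
      split_ifs <;> norm_num
  · intro k hk j hj hkj
    rcases hne k hk j hj hkj with ⟨hk, hj⟩ | ⟨hk, hj⟩
    · rw [hcl k hk, hcl' j hj, hy1, hgAB k hk j hj, if_pos (k3 j hj).1]
      show (0 : ℤ) < 1
      norm_num
    · rw [hcl' k hk, hcl j hj, hy2, hgBA k hk j hj, if_neg (Finset.mem_compl.1 (h3 j hj).1)]
      show (0 : ℤ) < 1
      norm_num
  · intro k hk j hj hkj hclj c hc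
    rcases Finset.mem_union.1 hk with hk | hk <;> rcases Finset.mem_union.1 hj with hj | hj
    · rw [hgAA k hk j hj] at hc ⊢
      rw [if_pos hk, if_pos hj, if_pos hk, if_pos hj, Prod.Lex.lt_iff]
      exact Or.inl (h1 k hk j hj hkj c hc)
    · rw [hcl k hk, hcl' j hj] at hclj
      exact absurd hclj (by simp)
    · rw [hcl' k hk, hcl j hj] at hclj
      exact absurd hclj (by simp)
    · rw [hgBB k hk j hj] at hc ⊢
      rw [if_neg (hBA k hk), if_neg (hBA j hj), if_neg (hBA k hk), if_neg (hBA j hj),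
        Prod.Lex.lt_iff]
      exact Or.inr ⟨rfl, k1 k hk j hj hkj c hc⟩
  · intro k hk j hj hkj c hc hcc
    rcases hne k hk j hj hkj with ⟨hk, hj⟩ | ⟨hk, hj⟩
    · rw [hcl k hk, hcl' j hj, hy1, hy1, hgAB k hk j hj, if_pos (k3 j hj).1] at hcc
      rw [hgAB k hk j hj] at hc ⊢
      have hcP : c ∈ P := by
        by_contra hcon
        rw [if_neg hcon] at hcc
        have : (-1 : ℤ) = 1 := hcc
        omega
      rw [if_neg (hBA j hj), if_neg (hBA j hj), Prod.Lex.lt_iff]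
      exact Or.inr ⟨rfl, (k3 j hj).2 c hcP hc⟩
    · have hq : q1 j ∉ P := Finset.mem_compl.1 (h3 j hj).1
      rw [hcl' k hk, hcl j hj, hy2, hy2, hgBA k hk j hj, if_neg hq] at hcc
      rw [hgBA k hk j hj] at hc ⊢
      have hcP : c ∉ P := by
        intro hcon
        rw [if_pos hcon] at hcc
        have : (-1 : ℤ) = 1 := hcc
        omega
      rw [if_pos hj, if_pos hj, Prod.Lex.lt_iff]
      exact Or.inl ((h3 j hj).2 c (Finset.mem_compl.2 hcP) hc)
  · intro k hk c
    have hsplit : ∀ p : ι → Prop, ∀ _ : DecidablePred p, ((A ∪ B).filter p).card =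
        (A.filter p).card + (B.filter p).card := by
      intro p _
      rw [Finset.filter_union, Finset.card_union_of_disjoint]
      exact Finset.disjoint_filter_filter hAB
    rw [hsplit]
    rcases Finset.mem_union.1 hk with hk | hk
    · rw [hvA k hk c, h2 k hk c, ← k4 c]
      congr 1
      · refine congrArg _ (Finset.filter_congr fun j hj => ?_)
        rw [hgAA k hk j hj]
      · refine congrArg _ (Finset.filter_congr fun j hj => ?_)
        rw [hgAB k hk j hj]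
        exact ⟨fun h => ⟨fun h' => hBA j hj (h' ▸ hk), h⟩, fun h => h.2⟩
    · rw [hvB k hk c, k2 k hk c, ← h4 c, add_comm]
      congr 1
      · refine congrArg _ (Finset.filter_congr fun j hj => ?_)
        rw [hgBA k hk j hj]
        exact ⟨fun h => ⟨fun h' => hBA k hk (h' ▸ hj), h⟩, fun h => h.2⟩
      · refine congrArg _ (Finset.filter_congr fun j hj => ?_)
        rw [hgBB k hk j hj]

end both

/-- patterns are realised -/
theorem BOReal.tRealized {n d : ℕ} (hn : 1 ≤ n) (hd : 1 ≤ d) (v : Fin n → Fin d → ℕ)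
    (h : BOReal d (Finset.univ : Finset (Fin n)) v) :
    Pool.Agent.Helper28.SO.TRealized n d v := by
  obtain ⟨G, i1, i2, i3, i4, a, g, ha, hg⟩ := h
  exact Pool.Agent.Helper27.BO.tRealized_of_bo hn hd a g
    (fun k j hkj c hc => ha k (Finset.mem_univ _) j (Finset.mem_univ _) hkj c hc) v
    fun k c => hg k (Finset.mem_univ _) c

end Helper13.TW
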