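import Mathlib

set_option autoImplicit false

/-! Coarse subdivisions of products of simplices, as indexed families of bipartite graphs, and
their refinement by local heights. -/

namespace Helper13.TW

open Finset

variable {n d : ℕ} {X : Type*}

/-- `g` is a nonnegative function supported on the graph `B` (labels to sets of colours). -/
structure Flow (B : Fin n → Finset (Fin d)) (g : Fin n → Fin d → ℝ) : Prop where
  nonneg : ∀ i c, 0 ≤ g i c
  supp : ∀ i c, c ∉ B i → g i c = 0

/-- The graphs `G x` cover the simplex and meet in common faces (for all weights of the labels). -/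
structure Coarse (n d : ℕ) {X : Type*} (G : X → Fin n → Finset (Fin d)) : Prop where
  cov : ∀ x₀ : Fin d → ℝ, (∀ c, 0 ≤ x₀ c) → ∑ c, x₀ c = n → ∃ x g, Flow (G x) g ∧
    (∀ i, ∑ c, g i c = 1) ∧ ∀ c, ∑ i, g i c = x₀ c
  sup : ∀ x x' g g', Flow (G x) g → Flow (G x') g' → (∀ i, ∑ c, g i c = ∑ c, g' i c) →
    (∀ c, ∑ i, g i c = ∑ i, g' i c) → Flow (G x) g'

/-- The edges of `B` of minimal reduced cost. -/
noncomputable def cut (B : Fin n → Finset (Fin d)) (w : Fin n → Fin d → ℝ) (u : Fin d → ℝ)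
    (i : Fin n) : Finset (Fin d) := by
  classical
  exact (B i).filter (fun c => ∀ c' ∈ B i, w i c - u c ≤ w i c' - u c')

theorem mem_cut {B : Fin n → Finset (Fin d)} {w : Fin n → Fin d → ℝ} {u : Fin d → ℝ}
    {i : Fin n} {c : Fin d} :
    c ∈ cut B w u i ↔ c ∈ B i ∧ ∀ c' ∈ B i, w i c - u c ≤ w i c' - u c' := by
  classical
  unfold cut
  rw [Finset.mem_filter]

theorem cut_subset (B : Fin n → Finset (Fin d)) (w : Fin n → Fin d → ℝ) (u : Fin d → ℝ)
    (i : Fin n) : cut B w u i ⊆ B i := fun _ hc => (mem_cut.1 hc).1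

theorem Flow.mono {B C : Fin n → Finset (Fin d)} {g : Fin n → Fin d → ℝ} (h : Flow B g)
    (hBC : ∀ i, B i ⊆ C i) : Flow C g :=
  ⟨h.nonneg, fun i c hc => h.supp i c fun h' => hc (hBC i h')⟩

/-- The slacks. -/
theorem exists_slack (B : Fin n → Finset (Fin d)) (w : Fin n → Fin d → ℝ) (u : Fin d → ℝ) :
    ∃ μ : Fin n → ℝ, (∀ i, ∀ c ∈ B i, 0 ≤ w i c - u c - μ i) ∧
      ∀ i, ∀ c ∈ B i, (w i c - u c - μ i = 0 ↔ c ∈ cut B w u i) := by
  classical
  have h : ∀ i, ∃ m : ℝ, (∀ c ∈ B i, 0 ≤ w i c - u c - m) ∧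
      ∀ c ∈ B i, (w i c - u c - m = 0 ↔ c ∈ cut B w u i) := by
    intro i
    rcases (B i).eq_empty_or_nonempty with h | h
    · exact ⟨0, by simp [h], by simp [h]⟩
    · obtain ⟨c₀, hc₀, hmin⟩ := Finset.exists_min_image (B i) (fun c => w i c - u c) h
      refine ⟨w i c₀ - u c₀, fun c hc => ?_, fun c hc => ?_⟩
      · have := hmin c hc
        linarith
      · rw [mem_cut]
        constructor
        · intro h1
          refine ⟨hc, fun c' hc' => ?_⟩
          have := hmin c' hc'
          linarith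
        · rintro ⟨-, h1⟩
          have h2 := h1 c₀ hc₀
          have h3 := hmin c hc
          linarith
  choose μ h1 h2 using h
  exact ⟨μ, h1, h2⟩

/-- Local heights are compatible: on common faces they differ by positive factors and constants. -/
def Compat (G : X → Fin n → Finset (Fin d)) (h : X → Fin n → Fin d → ℝ) : Prop :=
  ∀ x x', ∃ (r : Fin n → ℝ) (s : Fin d → ℝ) (α : Fin n → ℝ) (β : Fin d → ℝ), (∀ i, 0 < r i) ∧
    ∀ i c, c ∈ G x i → c ∈ G x' i → r i = s c ∧ h x' i c = r i * h x i c + α i + β c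

/-- The refined family. -/
noncomputable def ref (G : X → Fin n → Finset (Fin d)) (h : X → Fin n → Fin d → ℝ)
    (p : X × (Fin d → ℝ)) : Fin n → Finset (Fin d) := cut (G p.1) (h p.1) p.2

theorem sup_ref {G : X → Fin n → Finset (Fin d)} (hG : ∀ x x' g g', Flow (G x) g →
    Flow (G x') g' → (∀ i, ∑ c, g i c = ∑ c, g' i c) → (∀ c, ∑ i, g i c = ∑ i, g' i c) →
    Flow (G x) g') {h : X → Fin n → Fin d → ℝ} (hh : Compat G h) (x x' : X) (u u' : Fin d → ℝ)
    (g g' : Fin n → Fin d → ℝ) (hg : Flow (cut (G x) (h x) u) g)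
    (hg' : Flow (cut (G x') (h x') u') g') (hrow : ∀ i, ∑ c, g i c = ∑ c, g' i c)
    (hcol : ∀ c, ∑ i, g i c = ∑ i, g' i c) : Flow (cut (G x) (h x) u) g' := by
  classical
  have g1 : Flow (G x) g := hg.mono (cut_subset _ _ _)
  have g2 : Flow (G x') g' := hg'.mono (cut_subset _ _ _)
  have g3 : Flow (G x) g' := hG x x' g g' g1 g2 hrow hcol
  have g4 : Flow (G x') g :=
    hG x' x g' g g2 g1 (fun i => (hrow i).symm) (fun c => (hcol c).symm)
  obtain ⟨r, s, α, β, hr, hrs⟩ := hh x x'
  obtain ⟨μ, p1, q1⟩ := exists_slack (G x) (h x) u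
  obtain ⟨μ', p2, q2⟩ := exists_slack (G x') (h x') u'
  -- the circulation
  set D : Fin n → Fin d → ℝ := fun i c => g' i c - g i c with hD
  have hDrow : ∀ i, ∑ c, D i c = 0 := by
    intro i
    simp only [hD, Finset.sum_sub_distrib]
    rw [hrow i, sub_self]
  have hDcol : ∀ c, ∑ i, D i c = 0 := by
    intro c
    simp only [hD, Finset.sum_sub_distrib]
    rw [hcol c, sub_self]
  have hD0 : ∀ i c, ¬ (c ∈ G x i ∧ c ∈ G x' i) → D i c = 0 := by
    intro i c hc
    simp only [hD]
    by_cases h1 : c ∈ G x i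
    · have h2 : c ∉ G x' i := fun h2 => hc ⟨h1, h2⟩
      rw [g2.supp i c h2, g4.supp i c h2, sub_zero]
    · rw [g3.supp i c h1, g1.supp i c h1, sub_zero]
  -- the scaled circulation
  have hrD : ∀ i c, r i * D i c = s c * D i c := by
    intro i c
    by_cases h1 : c ∈ G x i ∧ c ∈ G x' i
    · rw [(hrs i c h1.1 h1.2).1]
    · rw [hD0 i c h1, mul_zero, mul_zero]
  have e1 : ∑ i, ∑ c, r i * (h x i c - u c - μ i) * D i c = ∑ i, ∑ c, r i * h x i c * D i c := by
    have a1 : ∑ i, ∑ c, u c * (r i * D i c) = 0 := by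
      rw [Finset.sum_comm]
      apply Finset.sum_eq_zero
      intro c _
      simp only [hrD]
      rw [← Finset.mul_sum, ← Finset.mul_sum, hDcol c, mul_zero, mul_zero]
    have a2 : ∑ i, ∑ c, (μ i * r i) * D i c = 0 := by
      apply Finset.sum_eq_zero
      intro i _
      rw [← Finset.mul_sum, hDrow i, mul_zero]
    have a3 : ∀ i c, r i * (h x i c - u c - μ i) * D i c =
        r i * h x i c * D i c - u c * (r i * D i c) - (μ i * r i) * D i c := by
      intro i c
      ring
    simp only [a3, Finset.sum_sub_distrib]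
    rw [a1, a2, sub_zero, sub_zero]
  have e2 : ∑ i, ∑ c, (h x' i c - u' c - μ' i) * (-D i c) =
      -∑ i, ∑ c, r i * h x i c * D i c := by
    have a1 : ∑ i, ∑ c, (u' c - β c) * D i c = 0 := by
      rw [Finset.sum_comm]
      apply Finset.sum_eq_zero
      intro c _
      rw [← Finset.mul_sum, hDcol c, mul_zero]
    have a2 : ∑ i, ∑ c, (μ' i - α i) * D i c = 0 := by
      apply Finset.sum_eq_zero
      intro i _
      rw [← Finset.mul_sum, hDrow i, mul_zero]
    have a3 : ∀ i c, (h x' i c - u' c - μ' i) * (-D i c) =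
        (u' c - β c) * D i c + (μ' i - α i) * D i c - r i * h x i c * D i c := by
      intro i c
      by_cases h1 : c ∈ G x i ∧ c ∈ G x' i
      · rw [(hrs i c h1.1 h1.2).2]
        ring
      · rw [hD0 i c h1]
        ring
    simp only [a3, Finset.sum_sub_distrib, Finset.sum_add_distrib]
    rw [a1, a2]
    ring
  -- the slacks against the flows
  have t1 : ∀ i c, r i * (h x i c - u c - μ i) * D i c =
      r i * ((h x i c - u c - μ i) * g' i c) := by
    intro i c
    have : (h x i c - u c - μ i) * g i c = 0 := by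
      by_cases h1 : c ∈ cut (G x) (h x) u i
      · rw [(q1 i c (mem_cut.1 h1).1).2 h1, zero_mul]
      · rw [hg.supp i c h1, mul_zero]
    have e : r i * (h x i c - u c - μ i) * D i c =
        r i * ((h x i c - u c - μ i) * g' i c) - r i * ((h x i c - u c - μ i) * g i c) := by
      simp only [hD]
      ring
    rw [e, this]
    ring
  have t2 : ∀ i c, (h x' i c - u' c - μ' i) * (-D i c) = (h x' i c - u' c - μ' i) * g i c := by
    intro i c
    have : (h x' i c - u' c - μ' i) * g' i c = 0 := by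
      by_cases h1 : c ∈ cut (G x') (h x') u' i
      · rw [(q2 i c (mem_cut.1 h1).1).2 h1, zero_mul]
      · rw [hg'.supp i c h1, mul_zero]
    simp only [hD]
    linear_combination (-1 : ℝ) * this
  have n1 : ∀ i c, 0 ≤ r i * ((h x i c - u c - μ i) * g' i c) := by
    intro i c
    by_cases h1 : c ∈ G x i
    · exact mul_nonneg (hr i).le (mul_nonneg (p1 i c h1) (g3.nonneg i c))
    · rw [g3.supp i c h1, mul_zero, mul_zero]
  have n2 : ∀ i c, 0 ≤ (h x' i c - u' c - μ' i) * g i c := by
    intro i c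
    by_cases h1 : c ∈ G x' i
    · exact mul_nonneg (p2 i c h1) (g4.nonneg i c)
    · rw [g4.supp i c h1, mul_zero]
  have s1 : 0 ≤ ∑ i, ∑ c, (h x' i c - u' c - μ' i) * (-D i c) := by
    simp only [t2]
    exact Finset.sum_nonneg fun i _ => Finset.sum_nonneg fun c _ => n2 i c
  have s2 : ∑ i, ∑ c, r i * ((h x i c - u c - μ i) * g' i c) ≤ 0 := by
    have : ∑ i, ∑ c, r i * ((h x i c - u c - μ i) * g' i c) =
        ∑ i, ∑ c, r i * h x i c * D i c := by
      rw [← e1]
      exact Finset.sum_congr rfl fun i _ => Finset.sum_congr rfl fun c _ => (t1 i c).symm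
    rw [this]
    rw [e2] at s1
    linarith
  have s3 : ∑ i, ∑ c, r i * ((h x i c - u c - μ i) * g' i c) = 0 :=
    le_antisymm s2 (Finset.sum_nonneg fun i _ => Finset.sum_nonneg fun c _ => n1 i c)
  refine ⟨g3.nonneg, fun i c hc => ?_⟩
  have z1 := (Finset.sum_eq_zero_iff_of_nonneg (fun i _ => Finset.sum_nonneg fun c _ =>
    n1 i c)).1 s3 i (mem_univ i)
  have z2 := (Finset.sum_eq_zero_iff_of_nonneg (fun c _ => n1 i c)).1 z1 c (mem_univ c)
  rcases mul_eq_zero.1 z2 with h1 | h1
  · exact absurd h1 (hr i).ne'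
  · rcases mul_eq_zero.1 h1 with h2 | h2
    · by_cases h3 : c ∈ G x i
      · exact absurd ((q1 i c h3).1 h2) hc
      · exact g3.supp i c h3
    · exact h2

end Helper13.TW
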