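import Pool.Agent.Helper13.TW.Cone

/-!
# TW: composition of bi-ordered patterns

`composition`: a macro pattern over a bi-ordered group `Γ` whose clusters carry strict inner
patterns over a bi-ordered group `H`; every label is seen from the other clusters, infinitely
magnified, in the colour where its inner position is minimal.
-/

set_option autoImplicit false

open scoped BigOperators

namespace Helper13.TW

/-- strict bi-ordered patterns with given contents on a finite set of labels -/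
def BOReal {ι : Type} [DecidableEq ι] (d : ℕ) (S : Finset ι) (v : ι → Fin d → ℕ) : Prop :=
  ∃ (G : Type) (_ : Group G) (_ : LinearOrder G) (_ : MulLeftMono G) (_ : MulRightMono G)
    (a : ι → Fin d → G) (g : ι → ι → Fin d),
    (∀ k ∈ S, ∀ j ∈ S, k ≠ j → ∀ c, c ≠ g k j →
      a k c * (a j c)⁻¹ < a k (g k j) * (a j (g k j))⁻¹) ∧
    ∀ k ∈ S, ∀ c, v k c = (S.filter (fun j => j ≠ k ∧ g k j = c)).card

section act

variable {Γ : Type} [Group Γ] [LinearOrder Γ] [MulLeftMono Γ] [MulRightMono Γ]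

theorem mul_lt_mul_left_bi {a b : Γ} (c : Γ) (h : a < b) : c * a < c * b := by
  refine lt_of_le_of_ne (mul_le_mul_right h.le c) fun h2 => h.ne (mul_left_cancel h2)

theorem mul_lt_mul_right_bi {a b : Γ} (c : Γ) (h : a < b) : a * c < b * c := by
  refine lt_of_le_of_ne (mul_le_mul_left h.le c) fun h2 => h.ne (mul_right_cancel h2)

theorem inv_lt_inv_bi {a b : Γ} (h : a < b) : b⁻¹ < a⁻¹ := by
  have h1 := mul_lt_mul_right_bi b⁻¹ (mul_lt_mul_left_bi a⁻¹ h)
  rwa [inv_mul_cancel, one_mul, mul_assoc, mul_inv_cancel, mul_one] at h1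

/-- the group acting on itself, order reversed -/
def Rev (Γ : Type) : Type := Γᵒᵈ

instance : LinearOrder (Rev Γ) := inferInstanceAs (LinearOrder Γᵒᵈ)

/-- the point of the element `x` -/
def Rev.mk (x : Γ) : Rev Γ := OrderDual.toDual x

theorem Rev.lt_iff (x y : Γ) : Rev.mk x < Rev.mk y ↔ y < x := Iff.rfl

instance : OAct Γ (Rev Γ) where
  smul γ x := Rev.mk (γ * OrderDual.ofDual x)
  one_smul x := one_mul (M := Γ) _
  mul_smul a b x := mul_assoc (G := Γ) _ _ _
  lt γ x y h := mul_lt_mul_left_bi (Γ := Γ) γ (a := OrderDual.ofDual y) (b := OrderDual.ofDual x) h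

theorem Rev.smul_mk (γ x : Γ) : γ • Rev.mk x = Rev.mk (γ * x) := rfl

theorem Rev.mk_inj {x y : Γ} : Rev.mk x = Rev.mk y ↔ x = y := Iff.rfl

theorem Rev.exists_mk (x : Rev Γ) : ∃ x' : Γ, x = Rev.mk x' := ⟨OrderDual.ofDual x, rfl⟩

end act

section

variable {Γ H : Type} [Group Γ] [LinearOrder Γ] [MulLeftMono Γ] [MulRightMono Γ]
variable [Group H] [LinearOrder H] [MulLeftMono H] [MulRightMono H]

/-- an element with one inner entry, at the place `1` -/
noncomputable def wr1 (m : Γ) (b : H) : WR Γ (Rev Γ) H := by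
  classical
  exact ⟨m, fun x => if x = Rev.mk 1 then b else 1, by
    refine (Set.isWF_singleton (a := Rev.mk (1 : Γ))).mono fun x hx => ?_
    by_contra hcon
    exact hx (if_neg hcon)⟩

theorem wr1_m (m : Γ) (b : H) : (wr1 m b).m = m := rfl

theorem wr1_w (m : Γ) (b : H) (x : Γ) :
    (wr1 m b).w (Rev.mk x) = if x = 1 then b else 1 := by
  classical
  unfold wr1
  by_cases h : x = 1
  · subst h
    simp
  · simp only [if_neg h]
    exact if_neg fun h2 => h (Rev.mk_inj.1 h2)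

theorem wr1_mul_inv_w (m m' : Γ) (b b' : H) (x : Γ) :
    (wr1 m b * (wr1 m' b')⁻¹).w (Rev.mk x) =
      (if x = 1 then b else 1) * (if x = m * m'⁻¹ then b' else 1)⁻¹ := by
  rw [WR.mul_inv_w, wr1_w, wr1_m, wr1_m, Rev.smul_mk, wr1_w]
  congr 2
  have : ((m * m'⁻¹)⁻¹ * x = 1) ↔ (x = m * m'⁻¹) := by
    rw [inv_mul_eq_one]
    exact eq_comm
  by_cases h : x = m * m'⁻¹
  · rw [if_pos h, if_pos (this.2 h)]
  · rw [if_neg h, if_neg fun h2 => h (this.1 h2)]

/-- **Composition.** -/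
theorem composition {ι κ : Type} [DecidableEq ι] {d : ℕ} (S : Finset ι) (cl : ι → κ)
    (y : κ → Fin d → Γ) (b : ι → Fin d → H) (g : ι → ι → Fin d)
    (hy : ∀ k ∈ S, ∀ j ∈ S, cl k ≠ cl j → ∀ c,
      y (cl k) c * (y (cl j) c)⁻¹ ≤ y (cl k) (g k j) * (y (cl j) (g k j))⁻¹)
    (hM : ∀ k ∈ S, ∀ j ∈ S, cl k ≠ cl j → 1 < y (cl k) (g k j) * (y (cl j) (g k j))⁻¹)
    (hin : ∀ k ∈ S, ∀ j ∈ S, k ≠ j → cl k = cl j → ∀ c, c ≠ g k j →
      b k c * (b j c)⁻¹ < b k (g k j) * (b j (g k j))⁻¹)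
    (hout : ∀ k ∈ S, ∀ j ∈ S, cl k ≠ cl j → ∀ c, c ≠ g k j →
      y (cl k) c * (y (cl j) c)⁻¹ = y (cl k) (g k j) * (y (cl j) (g k j))⁻¹ →
      b j (g k j) < b j c)
    (v : ι → Fin d → ℕ)
    (hv : ∀ k ∈ S, ∀ c, v k c = (S.filter (fun j => j ≠ k ∧ g k j = c)).card) :
    BOReal d S v := by
  refine ⟨WR Γ (Rev Γ) H, inferInstance, inferInstance, inferInstance, inferInstance,
    fun k c => wr1 (y (cl k) c) (b k c), g, fun k hk j hj hkj c hc => ?_, hv⟩
  beta_reduce
  apply WR.lt_of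
  rw [WR.mul_inv_m, WR.mul_inv_m, wr1_m, wr1_m, wr1_m, wr1_m]
  by_cases hcl : cl k = cl j
  · right
    have h1 : ∀ c, y (cl k) c * (y (cl j) c)⁻¹ = 1 := fun c => by rw [hcl, mul_inv_cancel]
    refine ⟨by rw [h1, h1], Rev.mk 1, fun x hx => ?_, ?_⟩
    · obtain ⟨x', hx'⟩ := Rev.exists_mk x
      rw [hx'] at hx ⊢
      have hx1 : x' ≠ 1 := fun h => by
        subst h
        exact lt_irrefl _ hx
      rw [wr1_mul_inv_w, wr1_mul_inv_w, h1, h1, if_neg hx1, if_neg hx1, if_neg hx1, if_neg hx1]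
    · rw [wr1_mul_inv_w, wr1_mul_inv_w, h1, h1, if_pos rfl, if_pos rfl, if_pos rfl, if_pos rfl]
      exact hin k hk j hj hkj hcl c hc
  · rcases (hy k hk j hj hcl c).lt_or_eq with h | h
    · exact Or.inl h
    · right
      have hM1 := hM k hk j hj hcl
      obtain ⟨M, hMd⟩ : ∃ M, M = y (cl k) (g k j) * (y (cl j) (g k j))⁻¹ := ⟨_, rfl⟩
      rw [← hMd] at hM1
      refine ⟨h, Rev.mk M, fun x hx => ?_, ?_⟩
      · obtain ⟨x', hx'⟩ := Rev.exists_mk x
        rw [hx'] at hx ⊢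
        rw [Rev.lt_iff] at hx
        have hx1 : x' ≠ 1 := fun h2 => by
          subst h2
          exact lt_irrefl _ (hx.trans hM1)
        have hx2 : x' ≠ M := hx.ne'
        rw [wr1_mul_inv_w, wr1_mul_inv_w, h, ← hMd, if_neg hx1, if_neg hx1, if_neg hx2, if_neg hx2]
      · rw [wr1_mul_inv_w, wr1_mul_inv_w, h, ← hMd, if_neg hM1.ne', if_neg hM1.ne', if_pos rfl,
          if_pos rfl, one_mul, one_mul]
        exact inv_lt_inv_bi (hout k hk j hj hcl c hc h)

end

end Helper13.TW
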