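import Mathlib

/-!
# TW: bi-orders from positive cones, wreath products

`Cone G`: a conjugation invariant positive cone of the group `G`; `Cone.order` is the order with
`a < b` iff `b * a⁻¹` is positive.  `WR Γ X H`: functions `X → H` with well-ordered support,
extended by the group `Γ` acting on the ordered set `X`.
-/

set_option autoImplicit false

namespace Helper13.TW

universe u

/-- a conjugation invariant positive cone -/
structure Cone (G : Type u) [Group G] where
  /-- positivity -/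
  P : G → Prop
  one : ¬ P 1
  mul : ∀ a b, P a → P b → P (a * b)
  conj : ∀ a b, P a → P (b * a * b⁻¹)
  tri : ∀ a, a ≠ 1 → P a ∨ P a⁻¹

namespace Cone

variable {G : Type u} [Group G] (C : Cone G)

/-- the order of the cone -/
@[reducible] noncomputable def order : LinearOrder G where
  le a b := a = b ∨ C.P (b * a⁻¹)
  lt a b := C.P (b * a⁻¹)
  le_refl a := Or.inl rfl
  le_trans a b c := by
    rintro (rfl | h1) (rfl | h2)
    · exact Or.inl rfl
    · exact Or.inr h2
    · exact Or.inr h1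
    · right
      have := C.mul _ _ h2 h1
      rwa [show c * b⁻¹ * (b * a⁻¹) = c * a⁻¹ by group] at this
  lt_iff_le_not_ge a b := by
    constructor
    · intro h
      refine ⟨Or.inr h, ?_⟩
      rintro (rfl | h2)
      · rw [mul_inv_cancel] at h
        exact C.one h
      · have := C.mul _ _ h h2
        rw [show b * a⁻¹ * (a * b⁻¹) = 1 by group] at this
        exact C.one this
    · rintro ⟨rfl | h1, h2⟩
      · exact absurd (Or.inl rfl) h2
      · exact h1
  le_antisymm a b := by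
    rintro (h | h1) (h' | h2)
    · exact h
    · exact h
    · exact h'.symm
    · have := C.mul _ _ h1 h2
      rw [show b * a⁻¹ * (a * b⁻¹) = 1 by group] at this
      exact absurd this C.one
  le_total a b := by
    by_cases h : a = b
    · exact Or.inl (Or.inl h)
    · rcases C.tri (b * a⁻¹) (fun h1 => h (mul_inv_eq_one.1 h1).symm) with h1 | h1
      · exact Or.inl (Or.inr h1)
      · right
        right
        rwa [show (b * a⁻¹)⁻¹ = a * b⁻¹ by group] at h1
  toDecidableLE := Classical.decRel _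
  toDecidableLT := Classical.decRel _
  toDecidableEq := Classical.decEq _

theorem lt_iff (a b : G) : (C.order.lt a b) ↔ C.P (b * a⁻¹) := Iff.rfl

theorem mulLeftMono : @MulLeftMono G _ (C.order.toLE) := by
  let _ := C.order
  refine ⟨fun c a b h => ?_⟩
  rcases (show a = b ∨ C.P (b * a⁻¹) from h) with h1 | h1
  · exact Or.inl (by show c * a = c * b; rw [h1])
  · right
    show C.P (c * b * (c * a)⁻¹)
    rw [show c * b * (c * a)⁻¹ = c * (b * a⁻¹) * c⁻¹ by group]
    exact C.conj _ _ h1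

theorem mulRightMono : @MulRightMono G _ (C.order.toLE) := by
  let _ := C.order
  refine ⟨fun c a b h => ?_⟩
  rcases (show a = b ∨ C.P (b * a⁻¹) from h) with h1 | h1
  · exact Or.inl (by show a * c = b * c; rw [h1])
  · right
    show C.P (b * c * (a * c)⁻¹)
    rw [show b * c * (a * c)⁻¹ = b * a⁻¹ by group]
    exact h1

end Cone

/-- order preserving actions -/
class OAct (Γ X : Type u) [Group Γ] [LinearOrder X] extends MulAction Γ X where
  lt : ∀ (γ : Γ) (x y : X), x < y → γ • x < γ • y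

section

variable {Γ X H : Type u} [Group Γ] [LinearOrder X] [OAct Γ X] [Group H]

theorem OAct.lt_iff (γ : Γ) (x y : X) : γ • x < γ • y ↔ x < y := by
  refine ⟨fun h => ?_, OAct.lt γ x y⟩
  have := OAct.lt γ⁻¹ _ _ h
  simpa using this

variable (Γ X H)

/-- the wreath product -/
structure WR where
  /-- the macro part -/
  m : Γ
  /-- the inner part -/
  w : X → H
  wf : {x | w x ≠ 1}.IsWF

end

namespace WR

variable {Γ X H : Type u} [Group Γ] [LinearOrder X] [OAct Γ X] [Group H]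

theorem ext' {a b : WR Γ X H} (h1 : a.m = b.m) (h2 : ∀ x, a.w x = b.w x) : a = b := by
  cases a
  cases b
  simp only at h1 h2
  subst h1
  congr 1
  funext x
  exact h2 x

theorem isWF_mul {f g : X → H} (hf : {x | f x ≠ 1}.IsWF) (hg : {x | g x ≠ 1}.IsWF) :
    {x | f x * g x ≠ 1}.IsWF := by
  refine (hf.union hg).mono fun x hx => ?_
  by_contra hcon
  simp only [Set.mem_union, Set.mem_ofPred_eq, not_or, not_not] at hcon
  apply hx
  rw [hcon.1, hcon.2, one_mul]

theorem isWF_inv {f : X → H} (hf : {x | f x ≠ 1}.IsWF) : {x | (f x)⁻¹ ≠ 1}.IsWF := by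
  refine hf.mono fun x hx h => hx ?_
  rw [h, inv_one]

theorem isWF_shift (γ : Γ) {f : X → H} (hf : {x | f x ≠ 1}.IsWF) :
    {x | f (γ • x) ≠ 1}.IsWF := by
  rw [Set.isWF_iff_no_descending_seq] at hf ⊢
  intro s hs hmem
  refine hf (fun i => γ • s i) (fun i j hij => OAct.lt γ _ _ (hs hij)) fun i => hmem i

instance : Mul (WR Γ X H) :=
  ⟨fun a b => ⟨a.m * b.m, fun x => a.w x * b.w (a.m⁻¹ • x), isWF_mul a.wf (isWF_shift _ b.wf)⟩⟩

instance : One (WR Γ X H) := ⟨⟨1, fun _ => 1, by simp [Set.isWF_empty]⟩⟩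

instance : Inv (WR Γ X H) :=
  ⟨fun a => ⟨a.m⁻¹, fun x => (a.w (a.m • x))⁻¹, isWF_inv (isWF_shift _ a.wf)⟩⟩

@[simp] theorem mul_m (a b : WR Γ X H) : (a * b).m = a.m * b.m := rfl
@[simp] theorem mul_w (a b : WR Γ X H) (x : X) : (a * b).w x = a.w x * b.w (a.m⁻¹ • x) := rfl
@[simp] theorem one_m : (1 : WR Γ X H).m = 1 := rfl
@[simp] theorem one_w (x : X) : (1 : WR Γ X H).w x = 1 := rfl
@[simp] theorem inv_m (a : WR Γ X H) : (a⁻¹).m = a.m⁻¹ := rfl
@[simp] theorem inv_w (a : WR Γ X H) (x : X) : (a⁻¹).w x = (a.w (a.m • x))⁻¹ := rfl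

instance : Group (WR Γ X H) where
  mul_assoc a b c := by
    refine ext' (mul_assoc _ _ _) fun x => ?_
    simp only [mul_w, mul_m, mul_inv_rev, mul_smul, mul_assoc]
  one_mul a := by
    refine ext' (one_mul _) fun x => ?_
    simp
  mul_one a := by
    refine ext' (mul_one _) fun x => ?_
    simp
  inv_mul_cancel a := by
    refine ext' (inv_mul_cancel _) fun x => ?_
    simp

theorem mul_inv_m (a b : WR Γ X H) : (a * b⁻¹).m = a.m * b.m⁻¹ := rfl

theorem mul_inv_w (a b : WR Γ X H) (x : X) :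
    (a * b⁻¹).w x = a.w x * (b.w ((a.m * b.m⁻¹)⁻¹ • x))⁻¹ := by
  simp only [mul_w, inv_w, mul_inv_rev, inv_inv, mul_smul]

variable [LinearOrder Γ] [MulLeftMono Γ] [MulRightMono Γ]
variable [LinearOrder H] [MulLeftMono H] [MulRightMono H]

/-- lexicographic positivity -/
def Pos (f : X → H) : Prop := ∃ x, (∀ y, y < x → f y = 1) ∧ 1 < f x

theorem one_lt_conj {a : H} (b : H) (h : 1 < a) : 1 < b * a * b⁻¹ := by
  have h1 : (1 : H) ≤ b * a * b⁻¹ := by
    have h2 : b * 1 ≤ b * a := mul_le_mul_right h.le b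
    have h3 : b * 1 * b⁻¹ ≤ b * a * b⁻¹ := mul_le_mul_left h2 b⁻¹
    rwa [mul_one, mul_inv_cancel] at h3
  refine lt_of_le_of_ne h1 fun h2 => h.ne ?_
  have h3 : b⁻¹ * 1 * b = b⁻¹ * (b * a * b⁻¹) * b := by rw [← h2]
  rw [show b⁻¹ * (b * a * b⁻¹) * b = a by group, mul_one, inv_mul_cancel] at h3
  exact h3

theorem one_lt_mul_bi {a b : H} (h : 1 < a) (h' : 1 ≤ b) : 1 < a * b := by
  refine lt_of_lt_of_le h ?_
  have := mul_le_mul_right h' a
  rwa [mul_one] at this

theorem one_lt_mul_bi' {a b : H} (h : 1 ≤ a) (h' : 1 < b) : 1 < a * b := by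
  refine lt_of_lt_of_le h' ?_
  have := mul_le_mul_left h b
  rwa [one_mul] at this

theorem one_lt_inv_bi {a : H} (h : a < 1) : 1 < a⁻¹ := by
  have h1 : a⁻¹ * a ≤ a⁻¹ * 1 := mul_le_mul_right h.le _
  rw [inv_mul_cancel, mul_one] at h1
  refine lt_of_le_of_ne h1 fun h2 => h.ne ?_
  rw [← inv_inv a, ← h2, inv_one]

omit [MulLeftMono H] [MulRightMono H] in
theorem Pos.not_one : ¬ Pos (fun _ : X => (1 : H)) := by
  rintro ⟨x, -, h⟩
  exact lt_irrefl _ h

theorem Pos.mul {f g : X → H} (hf : Pos f) (hg : Pos g) : Pos fun x => f x * g x := by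
  obtain ⟨x, h1, h2⟩ := hf
  obtain ⟨y, h3, h4⟩ := hg
  rcases lt_trichotomy x y with h | h | h
  · refine ⟨x, fun z hz => ?_, ?_⟩
    · show f z * g z = 1
      rw [h1 z hz, h3 z (hz.trans h), one_mul]
    · show 1 < f x * g x
      rw [h3 x h, mul_one]
      exact h2
  · subst h
    exact ⟨x, fun z hz => by show f z * g z = 1; rw [h1 z hz, h3 z hz, one_mul],
      one_lt_mul_bi h2 h4.le⟩
  · refine ⟨y, fun z hz => ?_, ?_⟩
    · show f z * g z = 1
      rw [h1 z (hz.trans h), h3 z hz, one_mul]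
    · show 1 < f y * g y
      rw [h1 y h, one_mul]
      exact h4

theorem Pos.conj {f : X → H} (hf : Pos f) (g : X → H) : Pos fun x => g x * f x * (g x)⁻¹ := by
  obtain ⟨x, h1, h2⟩ := hf
  refine ⟨x, fun z hz => ?_, one_lt_conj _ h2⟩
  show g z * f z * (g z)⁻¹ = 1
  rw [h1 z hz, mul_one, mul_inv_cancel]

theorem Pos.shift {f : X → H} (hf : Pos f) (γ : Γ) : Pos fun x => f (γ • x) := by
  obtain ⟨x, h1, h2⟩ := hf
  refine ⟨γ⁻¹ • x, fun z hz => ?_, ?_⟩
  · apply h1
    have := OAct.lt γ _ _ hz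
    rwa [smul_inv_smul] at this
  · show 1 < f (γ • γ⁻¹ • x)
    rw [smul_inv_smul]
    exact h2

theorem pos_or_pos {f : X → H} (hf : {x | f x ≠ 1}.IsWF) (h : ∃ x, f x ≠ 1) :
    Pos f ∨ Pos fun x => (f x)⁻¹ := by
  obtain ⟨x, hx⟩ := h
  have hne : {x | f x ≠ 1}.Nonempty := ⟨x, hx⟩
  have h1 := hf.min_mem hne
  have h2 : ∀ z, z < hf.min hne → f z = 1 := by
    intro z hz
    by_contra hcon
    exact hf.not_lt_min hne hcon hz
  rcases lt_or_gt_of_ne (show f (hf.min hne) ≠ 1 from h1) with h3 | h3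
  · exact Or.inr ⟨_, fun z hz => by show (f z)⁻¹ = 1; rw [h2 z hz, inv_one], one_lt_inv_bi h3⟩
  · exact Or.inl ⟨_, h2, h3⟩

/-- the cone of the wreath product: the macro part is compared first -/
def cone : Cone (WR Γ X H) where
  P a := 1 < a.m ∨ (a.m = 1 ∧ Pos a.w)
  one := by
    rintro (h | ⟨-, h⟩)
    · exact lt_irrefl _ h
    · exact Pos.not_one h
  mul a b := by
    rintro (h | ⟨h, h'⟩) (k | ⟨k, k'⟩)
    · exact Or.inl (one_lt_mul_bi h k.le)
    · exact Or.inl (one_lt_mul_bi h k.ge)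
    · exact Or.inl (one_lt_mul_bi' h.ge k)
    · refine Or.inr ⟨by rw [mul_m, h, k, one_mul], ?_⟩
      have : (a * b).w = fun x => a.w x * b.w x := by
        funext x
        rw [mul_w, h, inv_one, one_smul]
      rw [this]
      exact h'.mul k'
  conj a b := by
    rintro (h | ⟨h, h'⟩)
    · left
      rw [mul_m, mul_m, inv_m]
      exact one_lt_conj _ h
    · refine Or.inr ⟨by rw [mul_m, mul_m, h, inv_m, mul_one, mul_inv_cancel], ?_⟩
      have : (b * a * b⁻¹).w = fun x => b.w x * a.w (b.m⁻¹ • x) * (b.w x)⁻¹ := by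
        funext x
        rw [mul_inv_w, mul_w, mul_m, h, mul_one, mul_inv_cancel, inv_one, one_smul]
      rw [this]
      exact (h'.shift b.m⁻¹).conj b.w
  tri a ha := by
    rcases lt_trichotomy a.m 1 with h | h | h
    · right
      left
      rw [inv_m]
      exact one_lt_inv_bi h
    · have h1 : ∃ x, a.w x ≠ 1 := by
        by_contra hcon
        push Not at hcon
        exact ha (ext' h hcon)
      rcases pos_or_pos a.wf h1 with h2 | h2
      · exact Or.inl (Or.inr ⟨h, h2⟩)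
      · refine Or.inr (Or.inr ⟨by rw [inv_m, h, inv_one], ?_⟩)
        have : (a⁻¹).w = fun x => (a.w x)⁻¹ := by
          funext x
          rw [inv_w, h, one_smul]
        rw [this]
        exact h2
    · exact Or.inl (Or.inl h)

noncomputable instance : LinearOrder (WR Γ X H) := (cone : Cone (WR Γ X H)).order

instance : MulLeftMono (WR Γ X H) := (cone : Cone (WR Γ X H)).mulLeftMono

instance : MulRightMono (WR Γ X H) := (cone : Cone (WR Γ X H)).mulRightMono

theorem lt_iff' (a b : WR Γ X H) : a < b ↔ 1 < b.m * a.m⁻¹ ∨ (b.m * a.m⁻¹ = 1 ∧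
    Pos fun x => b.w x * (a.w x)⁻¹) := by
  show (1 < (b * a⁻¹).m ∨ ((b * a⁻¹).m = 1 ∧ Pos (b * a⁻¹).w)) ↔ _
  rw [mul_inv_m]
  constructor
  · rintro (h | ⟨h, h'⟩)
    · exact Or.inl h
    · refine Or.inr ⟨h, ?_⟩
      have : (b * a⁻¹).w = fun x => b.w x * (a.w x)⁻¹ := by
        funext x
        rw [mul_inv_w, h, inv_one, one_smul]
      rwa [this] at h'
  · rintro (h | ⟨h, h'⟩)
    · exact Or.inl h
    · refine Or.inr ⟨h, ?_⟩
      have : (b * a⁻¹).w = fun x => b.w x * (a.w x)⁻¹ := by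
        funext x
        rw [mul_inv_w, h, inv_one, one_smul]
      rwa [this]

/-- strict comparison -/
theorem lt_of {a b : WR Γ X H} (h : a.m < b.m ∨ (a.m = b.m ∧ ∃ x, (∀ y, y < x → a.w y = b.w y) ∧
    a.w x < b.w x)) : a < b := by
  rw [lt_iff']
  rcases h with h | ⟨h, x, h1, h2⟩
  · left
    have h3 : a.m * a.m⁻¹ ≤ b.m * a.m⁻¹ := mul_le_mul_left h.le _
    rw [mul_inv_cancel] at h3
    refine lt_of_le_of_ne h3 fun h4 => h.ne ?_
    exact (mul_inv_eq_one.1 h4.symm).symm
  · right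
    refine ⟨by rw [h, mul_inv_cancel], x, fun y hy => ?_, ?_⟩
    · show b.w y * (a.w y)⁻¹ = 1
      rw [h1 y hy, mul_inv_cancel]
    · show 1 < b.w x * (a.w x)⁻¹
      have h3 : a.w x * (a.w x)⁻¹ ≤ b.w x * (a.w x)⁻¹ := mul_le_mul_left h2.le _
      rw [mul_inv_cancel] at h3
      refine lt_of_le_of_ne h3 fun h4 => h2.ne ?_
      exact (mul_inv_eq_one.1 h4.symm).symm

end WR

end Helper13.TW
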