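import Pool.Agent.Helper13.TW.Coarse
import Pool.Agent.Helper30.SO.DualAux
import Pool.Agent.Helper84.SO.PotentialLe

set_option autoImplicit false

/-! Linear programming duality for the transport problem on a bipartite graph, and the refinement
of a coarse subdivision. -/

namespace Helper13.TW

open Finset
open Pool.Agent.Helper28.SO (d12move d12row d12col d12cost d12nonneg potential_le)

variable {n d : ℕ}

theorem move_supp {B : Fin n → Finset (Fin d)} {m : ℕ} {lam : Fin n → Fin d → ℝ}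
    (h : ∀ i c, c ∉ B i → lam i c = 0) (ε : ℝ) (p : Fin (m + 1) → Fin d × Fin d × ℝ)
    (it : Fin (m + 1) → Fin n) (h1 : ∀ t, (p t).1 ∈ B (it t)) (h2 : ∀ t, (p t).2.1 ∈ B (it t)) :
    ∀ i c, c ∉ B i → d12move lam ε p it i c = 0 := by
  intro i c hc
  unfold d12move
  rw [h i c hc, zero_add]
  have : ∑ t, ((if i = it t ∧ c = (p t).2.1 then (1 : ℝ) else 0) -
      (if i = it t ∧ c = (p t).1 then (1 : ℝ) else 0)) = 0 := by
    apply Finset.sum_eq_zero
    intro t _
    rw [if_neg, if_neg, sub_zero]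
    · rintro ⟨rfl, rfl⟩
      exact hc (h1 t)
    · rintro ⟨rfl, rfl⟩
      exact hc (h2 t)
  rw [this, mul_zero]

/-- Duality on a graph. -/
theorem exists_dual_on (B : Fin n → Finset (Fin d)) (w : Fin n → Fin d → ℝ) (x : Fin d → ℝ)
    (g₀ : Fin n → Fin d → ℝ) (hg₀ : Flow B g₀) (hr₀ : ∀ i, ∑ c, g₀ i c = 1)
    (hc₀ : ∀ c, ∑ i, g₀ i c = x c) :
    ∃ (u : Fin d → ℝ) (g : Fin n → Fin d → ℝ), Flow (cut B w u) g ∧ (∀ i, ∑ c, g i c = 1) ∧
      ∀ c, ∑ i, g i c = x c := by
  classical
  -- the transport polytope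
  let K : Set (Fin n → Fin d → ℝ) :=
    {lam | (∀ i c, 0 ≤ lam i c) ∧ (∀ i, ∑ c, lam i c = 1) ∧ (∀ c, ∑ i, lam i c = x c) ∧
      ∀ i c, c ∉ B i → lam i c = 0}
  have hcont : ∀ i c, Continuous (fun lam : Fin n → Fin d → ℝ => lam i c) := fun i c =>
    (continuous_apply c).comp (continuous_apply i)
  have hKc : IsCompact K := by
    have hsub : K ⊆ Set.pi Set.univ (fun _ : Fin n => Set.pi Set.univ
        (fun _ : Fin d => Set.Icc (0 : ℝ) 1)) := by
      rintro lam ⟨h1, h2, -⟩ i - c -
      refine ⟨h1 i c, ?_⟩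
      rw [← h2 i]
      exact Finset.single_le_sum (fun c _ => h1 i c) (Finset.mem_univ c)
    have hcl : IsClosed K := by
      have e : K = (⋂ i, ⋂ c, {lam : Fin n → Fin d → ℝ | 0 ≤ lam i c}) ∩
          ((⋂ i, {lam : Fin n → Fin d → ℝ | ∑ c, lam i c = 1}) ∩
            ((⋂ c, {lam : Fin n → Fin d → ℝ | ∑ i, lam i c = x c}) ∩
              ⋂ i, ⋂ c, {lam : Fin n → Fin d → ℝ | c ∉ B i → lam i c = 0})) := by
        ext lam
        simp only [K, Set.mem_ofPred_eq, Set.mem_inter_iff, Set.mem_iInter]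
      rw [e]
      refine IsClosed.inter (isClosed_iInter fun i => isClosed_iInter fun c =>
        isClosed_le continuous_const (hcont i c)) (IsClosed.inter (isClosed_iInter fun i =>
          isClosed_eq (continuous_finsetSum _ fun c _ => hcont i c) continuous_const)
          (IsClosed.inter (isClosed_iInter fun c =>
            isClosed_eq (continuous_finsetSum _ fun i _ => hcont i c) continuous_const)
            (isClosed_iInter fun i => isClosed_iInter fun c => ?_)))
      by_cases hc : c ∈ B i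
      · have : {lam : Fin n → Fin d → ℝ | c ∉ B i → lam i c = 0} = Set.univ := by
          ext lam
          simp [hc]
        rw [this]
        exact isClosed_univ
      · have : {lam : Fin n → Fin d → ℝ | c ∉ B i → lam i c = 0} =
            {lam : Fin n → Fin d → ℝ | lam i c = 0} := by
          ext lam
          simp [hc]
        rw [this]
        exact isClosed_eq (hcont i c) continuous_const
    refine IsCompact.of_isClosed_subset ?_ hcl hsub
    exact isCompact_univ_pi fun _ => isCompact_univ_pi fun _ => isCompact_Icc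
  have hKn : K.Nonempty := ⟨g₀, hg₀.nonneg, hr₀, hc₀, hg₀.supp⟩
  have hF : Continuous (fun lam : Fin n → Fin d → ℝ => ∑ i, ∑ c, w i c * lam i c) :=
    continuous_finsetSum _ fun i _ => continuous_finsetSum _ fun c _ =>
      continuous_const.mul (hcont i c)
  obtain ⟨lam, ⟨h0, hrow, hcol, hsupp⟩, hmin⟩ := hKc.exists_isMinOn hKn hF.continuousOn
  -- the edges
  let E : Finset (Fin d × Fin d × ℝ) :=
    ((Finset.univ : Finset (Fin n × Fin d × Fin d)).filter
      (fun q => 0 < lam q.1 q.2.1 ∧ q.2.2 ∈ B q.1)).image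
      (fun q => (q.2.1, q.2.2, w q.1 q.2.2 - w q.1 q.2.1))
  have hE : ∀ e ∈ E, ∃ i, 0 < lam i e.1 ∧ e.2.1 ∈ B i ∧ e.2.2 = w i e.2.1 - w i e.1 := by
    intro e he
    obtain ⟨q, hq, rfl⟩ := Finset.mem_image.1 he
    exact ⟨q.1, (Finset.mem_filter.1 hq).2.1, (Finset.mem_filter.1 hq).2.2, rfl⟩
  obtain ⟨y, hy⟩ := potential_le E (by
    intro m p hp hstep hinj
    choose it hit1 hit3 hit2 using fun t => hE (p t) (hp t)
    obtain ⟨t₀, -, ht₀⟩ := Finset.exists_min_image (Finset.univ : Finset (Fin (m + 1)))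
      (fun t => lam (it t) (p t).1) ⟨0, Finset.mem_univ _⟩
    set ε := lam (it t₀) (p t₀).1 with hε
    have hεpos : 0 < ε := hit1 t₀
    have hmem : d12move lam ε p it ∈ K := by
      refine ⟨fun i c => d12nonneg lam h0 ε hεpos.le p it hinj
        (fun t => ht₀ t (Finset.mem_univ t)) i c, fun i => ?_, fun c => ?_, ?_⟩
      · rw [d12row, hrow]
      · rw [d12col lam ε p it hstep, hcol]
      · refine move_supp hsupp ε p it (fun t => ?_) hit3
        by_contra hcon
        exact (hit1 t).ne' (hsupp _ _ hcon)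
    have h1 : ∑ i, ∑ c, w i c * lam i c ≤ ∑ i, ∑ c, w i c * d12move lam ε p it i c :=
      hmin hmem
    rw [d12cost] at h1
    have h2 : 0 ≤ ε * ∑ t, (w (it t) (p t).2.1 - w (it t) (p t).1) := by linarith
    have h3 := nonneg_of_mul_nonneg_right h2 hεpos
    refine h3.trans (le_of_eq ?_)
    exact Finset.sum_congr rfl fun t _ => (hit2 t).symm)
  refine ⟨y, lam, ⟨h0, ?_⟩, hrow, hcol⟩
  intro i c hc
  by_contra hne
  have hpos : 0 < lam i c := lt_of_le_of_ne (h0 i c) (Ne.symm hne)
  apply hc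
  rw [mem_cut]
  refine ⟨?_, fun k' hk' => ?_⟩
  · by_contra hcon
    exact hne (hsupp i c hcon)
  have h1 := hy (c, k', w i k' - w i c) (by
    refine Finset.mem_image.2 ⟨(i, c, k'), ?_, rfl⟩
    rw [Finset.mem_filter]
    exact ⟨Finset.mem_univ _, hpos, hk'⟩)
  simp only at h1
  linarith

/-- **Refinement of a coarse subdivision by compatible local heights.** -/
theorem Coarse.ref {X : Type*} {G : X → Fin n → Finset (Fin d)} (hG : Coarse n d G)
    {h : X → Fin n → Fin d → ℝ} (hh : Compat G h) : Coarse n d (ref G h) := by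
  constructor
  · intro x₀ hx₀ hs
    obtain ⟨x, g, hg, hr, hc⟩ := hG.cov x₀ hx₀ hs
    obtain ⟨u, g', hg', hr', hc'⟩ := exists_dual_on (G x) (h x) x₀ g hg hr hc
    exact ⟨(x, u), g', hg', hr', hc'⟩
  · intro p p' g g' hg hg' hrow hcol
    exact sup_ref hG.sup hh p.1 p'.1 p.2 p'.2 g g' hg hg' hrow hcol

/-- The trivial subdivision. -/
theorem coarse_univ (hn : 1 ≤ n) :
    Coarse n d (fun (_ : Unit) (_ : Fin n) => (univ : Finset (Fin d))) := by
  constructor
  · intro x₀ hx₀ hs
    have hn' : (0 : ℝ) < n := Nat.cast_pos.2 hn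
    refine ⟨(), fun _ c => x₀ c / n, ⟨fun _ c => div_nonneg (hx₀ c) hn'.le, fun i c hc =>
      absurd (mem_univ c) hc⟩, fun _ => ?_, fun c => ?_⟩
    · rw [← Finset.sum_div, hs, div_self hn'.ne']
    · rw [Finset.sum_const, Finset.card_univ, Fintype.card_fin, nsmul_eq_mul]
      field_simp
  · intro x x' g g' _ hg' _ _
    exact hg'

/-- Global heights are compatible. -/
theorem compat_const {X : Type*} (G : X → Fin n → Finset (Fin d)) (w : Fin n → Fin d → ℝ) :
    Compat G (fun _ => w) := by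
  intro x x'
  exact ⟨fun _ => 1, fun _ => 1, fun _ => 0, fun _ => 0, fun _ => one_pos,
    fun i c _ _ => ⟨rfl, by ring⟩⟩

end Helper13.TW
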