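import Pool.Agent.Helper13.TW.Dual

set_option autoImplicit false

/-! Duality on a graph with arbitrary row sums; best responses. -/

namespace Helper13.TW

open Finset
open Pool.Agent.Helper28.SO (d12move d12row d12col d12cost d12nonneg potential_le)

variable {n d : ℕ}

/-- Duality on a graph with arbitrary row sums. -/
theorem exists_dual_rows (B : Fin n → Finset (Fin d)) (w : Fin n → Fin d → ℝ) (ρ : Fin n → ℝ)
    (x : Fin d → ℝ) (g₀ : Fin n → Fin d → ℝ) (hg₀ : Flow B g₀) (hr₀ : ∀ i, ∑ c, g₀ i c = ρ i)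
    (hc₀ : ∀ c, ∑ i, g₀ i c = x c) :
    ∃ (u : Fin d → ℝ) (g : Fin n → Fin d → ℝ), Flow (cut B w u) g ∧ (∀ i, ∑ c, g i c = ρ i) ∧
      ∀ c, ∑ i, g i c = x c := by
  classical
  -- the transport polytope
  let K : Set (Fin n → Fin d → ℝ) :=
    {lam | (∀ i c, 0 ≤ lam i c) ∧ (∀ i, ∑ c, lam i c = ρ i) ∧ (∀ c, ∑ i, lam i c = x c) ∧
      ∀ i c, c ∉ B i → lam i c = 0}
  have hcont : ∀ i c, Continuous (fun lam : Fin n → Fin d → ℝ => lam i c) := fun i c =>
    (continuous_apply c).comp (continuous_apply i)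
  have hKc : IsCompact K := by
    have hsub : K ⊆ Set.pi Set.univ (fun i : Fin n => Set.pi Set.univ
        (fun _ : Fin d => Set.Icc (0 : ℝ) (ρ i))) := by
      rintro lam ⟨h1, h2, -⟩ i - c -
      refine ⟨h1 i c, ?_⟩
      rw [← h2 i]
      exact Finset.single_le_sum (fun c _ => h1 i c) (Finset.mem_univ c)
    have hcl : IsClosed K := by
      have e : K = (⋂ i, ⋂ c, {lam : Fin n → Fin d → ℝ | 0 ≤ lam i c}) ∩
          ((⋂ i, {lam : Fin n → Fin d → ℝ | ∑ c, lam i c = ρ i}) ∩
            ((⋂ c, {lam : Fin n → Fin d → ℝ | ∑ i, lam i c = x c}) ∩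
              ⋂ i, ⋂ c, {lam : Fin n → Fin d → ℝ | c ∉ B i → lam i c = 0})) := by
        ext lam
        simp only [K, Set.mem_ofPred_eq, Set.mem_inter_iff, Set.mem_iInter]
      rw [e]
      refine IsClosed.inter (isClosed_iInter fun i => isClosed_iInter fun c =>
        isClosed_le continuous_const (hcont i c)) (IsClosed.inter (isClosed_iInter fun i =>
          isClosed_eq (continuous_finsetSum _ fun c _ => hcont i c) continuous_const)
          (IsClosed.inter (isClosed_iInter fun c =>
            isClosed_eq (continuous_finsetSum _ fun i _ => hcont i c) continuous_const)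
            (isClosed_iInter fun i => isClosed_iInter fun c => ?_)))
      by_cases hc : c ∈ B i
      · have : {lam : Fin n → Fin d → ℝ | c ∉ B i → lam i c = 0} = Set.univ := by
          ext lam
          simp [hc]
        rw [this]
        exact isClosed_univ
      · have : {lam : Fin n → Fin d → ℝ | c ∉ B i → lam i c = 0} =
            {lam : Fin n → Fin d → ℝ | lam i c = 0} := by
          ext lam
          simp [hc]
        rw [this]
        exact isClosed_eq (hcont i c) continuous_const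
    refine IsCompact.of_isClosed_subset ?_ hcl hsub
    exact isCompact_univ_pi fun _ => isCompact_univ_pi fun _ => isCompact_Icc
  have hKn : K.Nonempty := ⟨g₀, hg₀.nonneg, hr₀, hc₀, hg₀.supp⟩
  have hF : Continuous (fun lam : Fin n → Fin d → ℝ => ∑ i, ∑ c, w i c * lam i c) :=
    continuous_finsetSum _ fun i _ => continuous_finsetSum _ fun c _ =>
      continuous_const.mul (hcont i c)
  obtain ⟨lam, ⟨h0, hrow, hcol, hsupp⟩, hmin⟩ := hKc.exists_isMinOn hKn hF.continuousOn
  -- the edges
  let E : Finset (Fin d × Fin d × ℝ) :=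
    ((Finset.univ : Finset (Fin n × Fin d × Fin d)).filter
      (fun q => 0 < lam q.1 q.2.1 ∧ q.2.2 ∈ B q.1)).image
      (fun q => (q.2.1, q.2.2, w q.1 q.2.2 - w q.1 q.2.1))
  have hE : ∀ e ∈ E, ∃ i, 0 < lam i e.1 ∧ e.2.1 ∈ B i ∧ e.2.2 = w i e.2.1 - w i e.1 := by
    intro e he
    obtain ⟨q, hq, rfl⟩ := Finset.mem_image.1 he
    exact ⟨q.1, (Finset.mem_filter.1 hq).2.1, (Finset.mem_filter.1 hq).2.2, rfl⟩
  obtain ⟨y, hy⟩ := potential_le E (by
    intro m p hp hstep hinj
    choose it hit1 hit3 hit2 using fun t => hE (p t) (hp t)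
    obtain ⟨t₀, -, ht₀⟩ := Finset.exists_min_image (Finset.univ : Finset (Fin (m + 1)))
      (fun t => lam (it t) (p t).1) ⟨0, Finset.mem_univ _⟩
    set ε := lam (it t₀) (p t₀).1 with hε
    have hεpos : 0 < ε := hit1 t₀
    have hmem : d12move lam ε p it ∈ K := by
      refine ⟨fun i c => d12nonneg lam h0 ε hεpos.le p it hinj
        (fun t => ht₀ t (Finset.mem_univ t)) i c, fun i => ?_, fun c => ?_, ?_⟩
      · rw [d12row, hrow]
      · rw [d12col lam ε p it hstep, hcol]
      · refine move_supp hsupp ε p it (fun t => ?_) hit3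
        by_contra hcon
        exact (hit1 t).ne' (hsupp _ _ hcon)
    have h1 : ∑ i, ∑ c, w i c * lam i c ≤ ∑ i, ∑ c, w i c * d12move lam ε p it i c :=
      hmin hmem
    rw [d12cost] at h1
    have h2 : 0 ≤ ε * ∑ t, (w (it t) (p t).2.1 - w (it t) (p t).1) := by linarith
    have h3 := nonneg_of_mul_nonneg_right h2 hεpos
    refine h3.trans (le_of_eq ?_)
    exact Finset.sum_congr rfl fun t _ => (hit2 t).symm)
  refine ⟨y, lam, ⟨h0, ?_⟩, hrow, hcol⟩
  intro i c hc
  by_contra hne
  have hpos : 0 < lam i c := lt_of_le_of_ne (h0 i c) (Ne.symm hne)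
  apply hc
  rw [mem_cut]
  refine ⟨?_, fun k' hk' => ?_⟩
  · by_contra hcon
    exact hne (hsupp i c hcon)
  have h1 := hy (c, k', w i k' - w i c) (by
    refine Finset.mem_image.2 ⟨(i, c, k'), ?_, rfl⟩
    rw [Finset.mem_filter]
    exact ⟨Finset.mem_univ _, hpos, hk'⟩)
  simp only at h1
  linarith


end Helper13.TW
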