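import Pool.Agent.Helper13.TW.Rounds

set_option autoImplicit false

/-! Theorem E: the lattice points of the cells of an equilibrium without coinciding points are
realised. -/

namespace Helper13.TW

open Finset
open Pool.Agent.Helper28.SO (TreeFam TRealized)

variable {n d : ℕ}

theorem exists_delay (hd : 1 ≤ d) (y : Fin n → Fin d → ℤ) (hsum : ∀ k, ∑ c, y k c = 0)
    (hne : ∀ k j, k ≠ j → y k ≠ y j) :
    ∃ M : Fin n → Fin n → ℕ, (∀ k j, k ≠ j → 1 ≤ M k j) ∧
      (∀ k j, k ≠ j → ∀ c, y k c - y j c ≤ M k j) ∧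
      ∀ k j, k ≠ j → ∀ c ∈ amax y k j, (M k j : ℤ) = y k c - y j c := by
  classical
  have h : ∀ k j, ∃ m : ℕ, k ≠ j → 1 ≤ m ∧ (∀ c, y k c - y j c ≤ m) ∧
      ∀ c ∈ amax y k j, (m : ℤ) = y k c - y j c := by
    intro k j
    by_cases hkj : k = j
    · exact ⟨0, fun h => absurd hkj h⟩
    · obtain ⟨c₀, -, hc₀⟩ := Finset.exists_max_image (univ : Finset (Fin d))
        (fun c => y k c - y j c) ⟨⟨0, by omega⟩, mem_univ _⟩
      have hpos : 0 < y k c₀ - y j c₀ := by
        by_contra hcon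
        apply hne k j hkj
        have h0 : ∑ c, (y j c - y k c) = 0 := by
          rw [Finset.sum_sub_distrib, hsum, hsum, sub_zero]
        have h1 := (Finset.sum_eq_zero_iff_of_nonneg (fun c _ => by
          have := hc₀ c (mem_univ c)
          omega)).1 h0
        funext c
        have := h1 c (mem_univ c)
        omega
      refine ⟨(y k c₀ - y j c₀).toNat, fun _ => ⟨by omega, fun c => ?_, fun c hc => ?_⟩⟩
      · have := hc₀ c (mem_univ c)
        omega
      · have h1 := hc₀ c (mem_univ c)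
        have h2 := (mem_amax.1 hc) c₀
        omega
  choose M hM using h
  exact ⟨M, fun k j hkj => (hM k j hkj).1, fun k j hkj => (hM k j hkj).2.1,
    fun k j hkj => (hM k j hkj).2.2⟩

theorem resolve {r : Fin n → Fin d → ℕ} {M : Fin n → Fin n → ℕ} (y : Fin n → Fin d → ℤ)
    (hM1 : ∀ k j, k ≠ j → 1 ≤ M k j)
    (hM2 : ∀ k j, k ≠ j → ∀ c, y k c - y j c ≤ M k j)
    (hM : ∀ k j, k ≠ j → ∀ c ∈ amax y k j, (M k j : ℤ) = y k c - y j c) (N : ℕ) :
    ∀ (a : ℕ → Fin n → Fin d → ℝ) (t : ℕ), Inv M (amax y) r a t →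
      ∑ p ∈ (univ : Finset (Fin n × Fin n)).filter (fun p => p.1 ≠ p.2),
        (tie M (amax y) a t p.1 p.2).card ≤ N →
      ∃ a' t', Inv M (amax y) r a' t' ∧ ∀ k j, k ≠ j → (tie M (amax y) a' t' k j).card = 1 := by
  classical
  induction N with
  | zero =>
    intro a t hI hs
    refine ⟨a, t, hI, fun k j hkj => ?_⟩
    have h1 := (hI k).nonempty j fun h => hkj h.symm
    have h0 : (k, j) ∈ (univ : Finset (Fin n × Fin n)).filter (fun p => p.1 ≠ p.2) :=
      Finset.mem_filter.2 ⟨mem_univ (k, j), hkj⟩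
    have h2 := Finset.single_le_sum (f := fun p : Fin n × Fin n =>
      (tie M (amax y) a t p.1 p.2).card) (fun _ _ => Nat.zero_le _) h0
    have h3 := h1.card_pos
    simp only at h2
    omega
  | succ N ih =>
    intro a t hI hs
    by_cases hact : ∃ k j, k ≠ j ∧ 2 ≤ (tie M (amax y) a t k j).card
    · obtain ⟨a', t', hI', hsub, k, j, hkj, hne⟩ := progress y hM1 hM2 hM a t hI hact
      refine ih a' t' hI' ?_
      have hlt : ∑ p ∈ (univ : Finset (Fin n × Fin n)).filter (fun p => p.1 ≠ p.2),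
          (tie M (amax y) a' t' p.1 p.2).card <
          ∑ p ∈ (univ : Finset (Fin n × Fin n)).filter (fun p => p.1 ≠ p.2),
          (tie M (amax y) a t p.1 p.2).card := by
        refine Finset.sum_lt_sum (fun p hp => ?_) ⟨(k, j), ?_, ?_⟩
        · exact Finset.card_le_card (hsub p.1 p.2 (Finset.mem_filter.1 hp).2)
        · exact Finset.mem_filter.2 ⟨mem_univ _, hkj⟩
        · exact Finset.card_lt_card (Finset.ssubset_iff_subset_ne.2 ⟨hsub k j hkj, hne⟩)
      omega
    · push Not at hact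
      refine ⟨a, t, hI, fun k j hkj => ?_⟩
      have h1 := hact k j hkj
      have h2 := ((hI k).nonempty j fun h => hkj h.symm).card_pos
      omega

/-- **Theorem E**, integral points. -/
theorem tRealized_of_equilibrium_int (hn : 1 ≤ n) (hd : 1 ≤ d) (y : Fin n → Fin d → ℤ)
    (hsum : ∀ k, ∑ c, y k c = 0) (hne : ∀ k j, k ≠ j → y k ≠ y j) (v : Fin n → Fin d → ℕ)
    (hv : ∀ k, Feas k (amax y k) (v k)) : TRealized n d v := by
  classical
  obtain ⟨M, hM1, hM2, hM⟩ := exists_delay hd y hsum hne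
  obtain ⟨a, t, hI, hone⟩ := resolve (r := v) y hM1 hM2 hM _ (fun _ _ _ => 0) 0 hv le_rfl
  have h1 : ∀ k j, ∃ s, k ≠ j → tie M (amax y) a t k j = {s} := by
    intro k j
    by_cases hkj : k = j
    · exact ⟨⟨0, by omega⟩, fun h => absurd hkj h⟩
    · obtain ⟨s, hs⟩ := Finset.card_eq_one.1 (hone k j hkj)
      exact ⟨s, fun _ => hs⟩
  choose σ hσ using h1
  refine tRealized_of_lex hn hd y M hM a t σ hσ v ?_
  intro k c
  obtain ⟨g, hg, g1, g2⟩ := hI k
  have h2 : ∀ j, g j c = if j ≠ k ∧ σ k j = c then 1 else 0 := by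
    intro j
    by_cases hj : j = k
    · subst hj
      rw [row_zero hg (by rw [g1, if_pos rfl]) c, if_neg fun h => h.1 rfl]
    · have h3 : ∀ c', c' ≠ σ k j → g j c' = 0 := by
        intro c' hc'
        apply hg.supp j c'
        rw [hσ k j fun h => hj h.symm, mem_singleton]
        exact hc'
      have h4 : g j (σ k j) = 1 := by
        have h5 := g1 j
        rw [if_neg hj, Finset.sum_eq_single (σ k j) (fun c' _ hc' => h3 c' hc')
          (fun h => absurd (mem_univ _) h)] at h5
        exact h5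
      by_cases hc : σ k j = c
      · rw [if_pos ⟨hj, hc⟩, ← hc, h4]
      · rw [if_neg fun h => hc h.2, h3 c fun h => hc h.symm]
  have h3 := g2 c
  simp only [h2] at h3
  rw [Finset.sum_boole] at h3
  exact_mod_cast h3.symm

end Helper13.TW
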