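import Pool.Agent.Helper13.TW.Dual
import Pool.Agent.Helper28.SP.Merge

set_option autoImplicit false

/-! Fine subdivisions as families of trees. -/

namespace Helper13.TW

open Finset
open Pool.Agent.Helper28.SO (TreeFam TRealized)

variable {n d : ℕ}

/-- `B` carries no circulation. -/
def Forest (B : Fin n → Finset (Fin d)) : Prop :=
  ∀ h : Fin n → Fin d → ℝ, (∀ i c, c ∉ B i → h i c = 0) → (∀ i, ∑ c, h i c = 0) →
    (∀ c, ∑ i, h i c = 0) → h = 0

/-- The number of edges of a forest. -/
theorem Forest.card_le (hd : 1 ≤ d) {B : Fin n → Finset (Fin d)} (hB : Forest B) :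
    ∑ i, (B i).card ≤ n + d - 1 := by
  classical
  let E : Finset (Fin n × Fin d) := Finset.univ.filter (fun p => p.2 ∈ B p.1)
  have hE : E.card = ∑ i, (B i).card := by
    simp only [E, Finset.card_filter]
    rw [Fintype.sum_prod_type]
    refine Finset.sum_congr rfl fun i _ => ?_
    rw [← Finset.card_filter]
    congr 1
    ext c
    simp
  let c₀ : Fin d := ⟨0, by omega⟩
  let hh : (E → ℝ) → Fin n → Fin d → ℝ := fun g i c =>
    if h : (i, c) ∈ E then g ⟨(i, c), h⟩ else 0
  let Ψ : (E → ℝ) →ₗ[ℝ] (Fin n → ℝ) × ({c : Fin d // c ≠ c₀} → ℝ) :=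
    { toFun := fun g => (fun i => ∑ c, hh g i c, fun c => ∑ i, hh g i c.1)
      map_add' := by
        intro g g'
        have e : ∀ i c, hh (g + g') i c = hh g i c + hh g' i c := by
          intro i c
          simp only [hh]
          split_ifs
          · rfl
          · rw [add_zero]
        apply Prod.ext
        · funext i
          simp only [e, Finset.sum_add_distrib, Prod.fst_add, Pi.add_apply]
        · funext c
          simp only [e, Finset.sum_add_distrib, Prod.snd_add, Pi.add_apply]
      map_smul' := by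
        intro r g
        have e : ∀ i c, hh (r • g) i c = r * hh g i c := by
          intro i c
          simp only [hh]
          split_ifs
          · rfl
          · rw [mul_zero]
        apply Prod.ext
        · funext i
          simp only [e, ← Finset.mul_sum, Prod.smul_fst, Pi.smul_apply, smul_eq_mul,
            RingHom.id_apply]
        · funext c
          simp only [e, ← Finset.mul_sum, Prod.smul_snd, Pi.smul_apply, smul_eq_mul,
            RingHom.id_apply] }
  have hinj : Function.Injective Ψ := by
    rw [← LinearMap.ker_eq_bot, LinearMap.ker_eq_bot']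
    intro g hg
    have h1 : ∀ i, ∑ c, hh g i c = 0 := fun i => congrFun (congrArg Prod.fst hg) i
    have h2 : ∀ c, c ≠ c₀ → ∑ i, hh g i c = 0 := fun c hc =>
      congrFun (congrArg Prod.snd hg) ⟨c, hc⟩
    have hsupp : ∀ i c, c ∉ B i → hh g i c = 0 := by
      intro i c hc
      simp only [hh]
      rw [dif_neg]
      intro h
      exact hc (Finset.mem_filter.1 h).2
    have h4 : ∀ c, ∑ i, hh g i c = 0 := by
      intro c
      by_cases hc : c = c₀
      · have e1 : ∑ c, ∑ i, hh g i c = 0 := by
          rw [Finset.sum_comm]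
          exact Finset.sum_eq_zero fun i _ => h1 i
        rw [← Finset.add_sum_erase _ _ (Finset.mem_univ c), Finset.sum_eq_zero
          (s := Finset.univ.erase c), add_zero] at e1
        · exact e1
        · intro c' hc'
          apply h2
          rw [← hc]
          exact Finset.ne_of_mem_erase hc'
      · exact h2 c hc
    have h5 := hB (hh g) hsupp h1 h4
    funext p
    obtain ⟨⟨i, c⟩, hp⟩ := p
    have h6 := congrFun (congrFun h5 i) c
    simp only [hh] at h6
    rw [dif_pos hp] at h6
    exact h6
  have h7 := LinearMap.finrank_le_finrank_of_injective hinj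
  rw [Module.finrank_prod, Module.finrank_fintype_fun_eq_card, Module.finrank_fintype_fun_eq_card,
    Module.finrank_fintype_fun_eq_card, Fintype.card_coe, hE] at h7
  simp only [Fintype.card_subtype_compl, Fintype.card_fin, Fintype.card_unique] at h7
  omega

theorem sum_degree (B : Fin n → Finset (Fin d)) :
    ∑ c, (univ.filter (fun i => c ∈ B i)).card = ∑ i, (B i).card := by
  classical
  have e1 : ∀ i, (B i).card = ∑ c, if c ∈ B i then 1 else 0 := by
    intro i
    rw [← Finset.card_filter]
    congr 1
    ext c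
    simp
  simp only [e1, Finset.card_filter]
  exact Finset.sum_comm

/-- **Fine subdivisions give families of trees with the expected holes.** -/
theorem tRealized_of_fine (hn : 1 ≤ n) (hd : 1 ≤ d) {X : Type*}
    {G : X → Fin n → Finset (Fin d)} (hG : Coarse n d G) (hfor : ∀ x, Forest (G x))
    (x : Fin n → X) (σ : Fin n → Fin n → Fin d) (h1 : ∀ k, G (x k) k = univ)
    (h2 : ∀ k j, j ≠ k → σ k j ∈ G (x k) j) (v : Fin n → Fin d → ℕ)
    (hv : ∀ k c, v k c = (univ.filter (fun j => j ≠ k ∧ σ k j = c)).card) :
    TRealized n d v := by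
  classical
  have hd0 : (0 : ℝ) < d := by exact_mod_cast hd
  have hvs : ∀ k, ∑ c, v k c = n - 1 := by
    intro k
    have h3 : ∑ c, v k c = (univ.filter (fun j : Fin n => j ≠ k)).card := by
      rw [Finset.card_eq_sum_card_fiberwise (f := fun j => σ k j) (t := univ)
        (fun _ _ => by simp)]
      refine Finset.sum_congr rfl fun c _ => ?_
      rw [hv k c, Finset.filter_filter]
    rw [h3, Finset.filter_ne', Finset.card_erase_of_mem (mem_univ k)]
    simp
  have hex : ∀ u : Fin d → ℕ, ∃ (x : X) (g : Fin n → Fin d → ℝ), ∑ c, u c = n - 1 →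
      Flow (G x) g ∧ (∀ i, ∑ c, g i c = 1) ∧ ∀ c, ∑ i, g i c = (u c : ℝ) + 1 / d := by
    intro u
    by_cases hu : ∑ c, u c = n - 1
    · obtain ⟨x, g, h⟩ := hG.cov (fun c => (u c : ℝ) + 1 / d) (fun c => by positivity) (by
        rw [Finset.sum_add_distrib, ← Nat.cast_sum, hu]
        simp only [Finset.sum_const, Finset.card_univ, Fintype.card_fin, nsmul_eq_mul]
        rw [mul_one_div_cancel hd0.ne', Nat.cast_sub hn]
        push_cast
        ring)
      exact ⟨x, g, fun _ => h⟩
    · exact ⟨x ⟨0, hn⟩, 0, fun h => absurd h hu⟩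
  choose X0 g0 hg0 using hex
  refine ⟨fun u => G (X0 u), ⟨?_, ?_⟩, hvs, ?_⟩
  · intro u hu
    obtain ⟨f1, f2, f3⟩ := hg0 u hu
    have hdeg : ∀ c, u c + 1 ≤ (univ.filter (fun i => c ∈ G (X0 u) i)).card := by
      intro c
      have a2 : ∑ i, g0 u i c ≤ ((univ.filter (fun i => c ∈ G (X0 u) i)).card : ℝ) := by
        rw [Finset.card_filter]
        push_cast
        refine Finset.sum_le_sum fun i _ => ?_
        split_ifs with h
        · rw [← f2 i]
          exact Finset.single_le_sum (fun c _ => f1.nonneg i c) (Finset.mem_univ c)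
        · rw [f1.supp i c h]
      have a3 : (u c : ℝ) < ((univ.filter (fun i => c ∈ G (X0 u) i)).card : ℝ) := by
        have : (0 : ℝ) < 1 / d := by positivity
        rw [f3 c] at a2
        linarith
      exact_mod_cast a3
    have htot : ∑ c, (u c + 1) = ∑ c, (univ.filter (fun i => c ∈ G (X0 u) i)).card := by
      apply le_antisymm
      · exact Finset.sum_le_sum fun c _ => hdeg c
      · rw [sum_degree]
        refine ((hfor (X0 u)).card_le hd).trans ?_
        rw [Finset.sum_add_distrib, hu]
        simp
        omega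
    intro c
    exact ((Finset.sum_eq_sum_iff_of_le fun c _ => hdeg c).1 htot c (Finset.mem_univ c)).symm
  · intro u w hu hw g g' hg hg' hs hs' hrow hcol
    have h3 := hG.sup (X0 u) (X0 w) g g' ⟨hg, hs⟩ ⟨hg', hs'⟩ hrow hcol
    have h4 := hfor (X0 u) (fun i c => g i c - g' i c)
      (fun i c hc => by rw [hs i c hc, h3.supp i c hc, sub_zero])
      (fun i => by rw [Finset.sum_sub_distrib, hrow i, sub_self])
      (fun c => by rw [Finset.sum_sub_distrib, hcol c, sub_self])
    funext i c
    have := congrFun (congrFun h4 i) c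
    simp only [Pi.zero_apply] at this
    linarith
  · intro k
    obtain ⟨f1, f2, f3⟩ := hg0 (v k) (hvs k)
    have hfl : Flow (G (x k)) (fun i c => if i = k then 1 / (d : ℝ) else
        if σ k i = c then 1 else 0) := by
      constructor
      · intro i c
        split_ifs <;> positivity
      · intro i c hc
        split_ifs with ha hb
        · rw [ha, h1 k] at hc
          exact absurd (mem_univ c) hc
        · rw [← hb] at hc
          exact absurd (h2 k i ha) hc
        · rfl
    have h3 := hG.sup (X0 (v k)) (x k) (g0 (v k)) _ f1 hfl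
      (fun i => by
        rw [f2 i]
        split_ifs with ha
        · simp only [Finset.sum_const, Finset.card_univ, Fintype.card_fin, nsmul_eq_mul]
          field_simp
        · simp)
      (fun c => by
        rw [f3 c, hv k c]
        have e : ∀ i : Fin n, (if i = k then 1 / (d : ℝ) else if σ k i = c then 1 else 0) =
            (if i = k then 1 / (d : ℝ) else 0) + (if i ≠ k ∧ σ k i = c then 1 else 0) := by
          intro i
          by_cases ha : i = k
          · simp [ha]
          · simp [ha]
        simp only [e, Finset.sum_add_distrib, Finset.sum_ite_eq', Finset.mem_univ, if_true,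
          Finset.sum_boole]
        ring)
    ext c
    simp only [Finset.mem_univ, iff_true]
    by_contra hcon
    have h4 := h3.supp k c hcon
    simp only [if_true] at h4
    have : (0 : ℝ) < 1 / d := by positivity
    linarith

/-- Rationally independent numbers. -/
theorem exists_generic (n d : ℕ) :
    ∃ b : Fin n → Fin d → ℝ, LinearIndependent ℚ (fun p : Fin n × Fin d => b p.1 p.2) := by
  classical
  have h1 : ((n * d : ℕ) : Cardinal) ≤ Module.rank ℚ ℝ := by
    rw [Real.rank_rat_real]
    exact (Cardinal.nat_lt_continuum _).le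
  obtain ⟨v, hv⟩ := Module.le_rank_iff.1 h1
  refine ⟨fun i c => v (finProdFinEquiv (i, c)), ?_⟩
  exact hv.comp (fun p : Fin n × Fin d => finProdFinEquiv p) finProdFinEquiv.injective

/-- Rationally independent heights give forests. -/
theorem forest_of_generic {b : Fin n → Fin d → ℝ}
    (hb : LinearIndependent ℚ (fun p : Fin n × Fin d => b p.1 p.2)) (B : Fin n → Finset (Fin d))
    (u : Fin d → ℝ) (μ : Fin n → ℝ) (hB : ∀ i, ∀ c ∈ B i, b i c = u c + μ i) : Forest B := by
  classical
  intro h hs hr hc
  by_contra hne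
  have hex : ∃ i c, h i c ≠ 0 := by
    by_contra hcon
    push Not at hcon
    exact hne (funext fun i => funext fun c => hcon i c)
  obtain ⟨i₀, c₀, h0⟩ := hex
  have hφ : ∃ φ : Module.Dual ℚ ℝ, φ (h i₀ c₀) ≠ 0 := by
    by_contra hcon
    push Not at hcon
    exact h0 ((Module.forall_dual_apply_eq_zero_iff ℚ _).1 hcon)
  obtain ⟨φ, hφ⟩ := hφ
  rw [Fintype.linearIndependent_iff] at hb
  refine hφ (hb (fun p => φ (h p.1 p.2)) ?_ (i₀, c₀))
  rw [Fintype.sum_prod_type]
  have e1 : ∀ i c, φ (h i c) • b i c = u c * (φ (h i c) : ℝ) + μ i * (φ (h i c) : ℝ) := by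
    intro i c
    rw [Rat.smul_def]
    by_cases hc' : c ∈ B i
    · rw [hB i c hc']
      ring
    · rw [hs i c hc', map_zero]
      simp
  simp only [e1, Finset.sum_add_distrib]
  have e2 : ∑ i, ∑ c, u c * (φ (h i c) : ℝ) = 0 := by
    rw [Finset.sum_comm]
    apply Finset.sum_eq_zero
    intro c _
    rw [← Finset.mul_sum, ← Rat.cast_sum, ← map_sum, hc c, map_zero, Rat.cast_zero, mul_zero]
  have e3 : ∑ i, ∑ c, μ i * (φ (h i c) : ℝ) = 0 := by
    apply Finset.sum_eq_zero
    intro i _
    rw [← Finset.mul_sum, ← Rat.cast_sum, ← map_sum, hr i, map_zero, Rat.cast_zero, mul_zero]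
  rw [e2, e3, add_zero]

/-- **A coarse subdivision with resolved holes realises them.** -/
theorem Coarse.tRealized (hn : 1 ≤ n) (hd : 1 ≤ d) {X : Type*}
    {G : X → Fin n → Finset (Fin d)} (hG : Coarse n d G)
    (x : Fin n → X) (σ : Fin n → Fin n → Fin d) (h1 : ∀ k, G (x k) k = univ)
    (h2 : ∀ k j, j ≠ k → G (x k) j = {σ k j}) (v : Fin n → Fin d → ℕ)
    (hv : ∀ k c, v k c = (univ.filter (fun j => j ≠ k ∧ σ k j = c)).card) :
    TRealized n d v := by
  classical
  obtain ⟨b, hb⟩ := exists_generic n d
  have hG' := hG.ref (compat_const G b)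
  refine tRealized_of_fine hn hd hG' ?_ (fun k => (x k, b k)) σ ?_ ?_ v hv
  · intro p
    obtain ⟨μ, p1, q1⟩ := exists_slack (G p.1) b p.2
    refine forest_of_generic hb _ p.2 μ ?_
    intro i c hc
    have := (q1 i c (mem_cut.1 hc).1).2 hc
    linarith
  · intro k
    ext c
    show c ∈ cut (G (x k)) b (b k) k ↔ c ∈ univ
    rw [mem_cut]
    refine ⟨fun _ => mem_univ c, fun _ => ⟨by rw [h1 k]; exact mem_univ c, fun c' _ => ?_⟩⟩
    simp
  · intro k j hj
    show σ k j ∈ cut (G (x k)) b (b k) j
    rw [mem_cut, h2 k j hj]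
    refine ⟨mem_singleton_self _, fun c' hc' => ?_⟩
    rw [mem_singleton.1 hc']

end Helper13.TW
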