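import Pool.Agent.Helper13.TW.Twist

set_option autoImplicit false

/-! Twisted subdivisions from lexicographic data: the displacement of the label `j` is seen by the
label `k` with the delay `M k j`. -/

namespace Helper13.TW

open Finset Filter Topology
open Pool.Agent.Helper28.SO (TreeFam TRealized)

variable {n d : ℕ}

theorem poly_pos (K : ℕ) (p : ℕ → ℝ) (t : ℕ) (ht : t < K) (h0 : ∀ s < t, p s = 0)
    (hp : 0 < p t) : ∀ᶠ L in 𝓝[>] (0 : ℝ), 0 < ∑ s ∈ range K, L ^ s * p s := by
  obtain ⟨m, rfl⟩ := Nat.exists_eq_add_of_lt ht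
  have e : ∀ L : ℝ, ∑ s ∈ range (t + m + 1), L ^ s * p s =
      L ^ t * ∑ s ∈ range (m + 1), L ^ s * p (t + s) := by
    intro L
    rw [add_assoc, Finset.sum_range_add, Finset.sum_eq_zero, zero_add, Finset.mul_sum]
    · refine Finset.sum_congr rfl fun s _ => ?_
      rw [pow_add]
      ring
    · intro s hs
      rw [h0 s (Finset.mem_range.1 hs), mul_zero]
  have hc : Continuous fun L : ℝ => ∑ s ∈ range (m + 1), L ^ s * p (t + s) := by fun_prop
  have h1 : ∑ s ∈ range (m + 1), (0 : ℝ) ^ s * p (t + s) = p t := by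
    rw [Finset.sum_range_succ']
    simp
  have h2 : ∀ᶠ L in 𝓝 (0 : ℝ), 0 < ∑ s ∈ range (m + 1), L ^ s * p (t + s) := by
    have := hc.tendsto 0
    rw [h1] at this
    exact this.eventually (lt_mem_nhds hp)
  have h3 : ∀ᶠ L in 𝓝[>] (0 : ℝ), 0 < L := self_mem_nhdsWithin
  filter_upwards [h2.filter_mono nhdsWithin_le_nhds, h3] with L hL1 hL2
  rw [e]
  positivity

/-- The displacement of `j` seen by `k` at the time `t`. -/
def view (M : Fin n → Fin n → ℕ) (a : ℕ → Fin n → Fin d → ℝ) (t : ℕ) (k j : Fin n)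
    (c : Fin d) : ℝ := if M k j ≤ t then a (t - M k j) j c else 0

/-- The colours in `S` of maximal relative displacement. -/
noncomputable def top (S : Finset (Fin d)) (f : Fin d → ℝ) : Finset (Fin d) := by
  classical
  exact S.filter (fun c => ∀ c' ∈ S, f c' ≤ f c)

theorem mem_top {S : Finset (Fin d)} {f : Fin d → ℝ} {c : Fin d} :
    c ∈ top S f ↔ c ∈ S ∧ ∀ c' ∈ S, f c' ≤ f c := by
  classical
  unfold top
  rw [Finset.mem_filter]

/-- The tie sets before the time `t`. -/
noncomputable def tie (M : Fin n → Fin n → ℕ) (S₀ : Fin n → Fin n → Finset (Fin d))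
    (a : ℕ → Fin n → Fin d → ℝ) : ℕ → Fin n → Fin n → Finset (Fin d)
  | 0, k, j => S₀ k j
  | t + 1, k, j => top (tie M S₀ a t k j) (fun c => a t k c - view M a t k j c)

theorem tie_subset (M : Fin n → Fin n → ℕ) (S₀ : Fin n → Fin n → Finset (Fin d))
    (a : ℕ → Fin n → Fin d → ℝ) (t : ℕ) (k j : Fin n) :
    tie M S₀ a (t + 1) k j ⊆ tie M S₀ a t k j := fun _ hc => (mem_top.1 hc).1

theorem tie_anti (M : Fin n → Fin n → ℕ) (S₀ : Fin n → Fin n → Finset (Fin d))
    (a : ℕ → Fin n → Fin d → ℝ) {s t : ℕ} (hst : s ≤ t) (k j : Fin n) :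
    tie M S₀ a t k j ⊆ tie M S₀ a s k j := by
  induction hst with
  | refl => exact Finset.Subset.refl _
  | step _ ih => exact (tie_subset M S₀ a _ k j).trans ih

theorem tie_eq {M : Fin n → Fin n → ℕ} {S₀ : Fin n → Fin n → Finset (Fin d)}
    {a : ℕ → Fin n → Fin d → ℝ} {t : ℕ} {k j : Fin n} {c c' : Fin d}
    (hc : c ∈ tie M S₀ a (t + 1) k j) (hc' : c' ∈ tie M S₀ a (t + 1) k j) :
    a t k c - view M a t k j c = a t k c' - view M a t k j c' := by
  have h1 := mem_top.1 hc
  have h2 := mem_top.1 hc'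
  exact le_antisymm (h2.2 c h1.1) (h1.2 c' h2.1)

/-- The first time when a colour is lost. -/
theorem exists_loss {M : Fin n → Fin n → ℕ} {S₀ : Fin n → Fin n → Finset (Fin d)}
    {a : ℕ → Fin n → Fin d → ℝ} {N : ℕ} {k j : Fin n} {c : Fin d} (hc : c ∈ S₀ k j)
    (hN : c ∉ tie M S₀ a N k j) : ∃ t < N, c ∈ tie M S₀ a t k j ∧ c ∉ tie M S₀ a (t + 1) k j := by
  induction N with
  | zero => exact absurd hc hN
  | succ N ih =>
    by_cases h : c ∈ tie M S₀ a N k j
    · exact ⟨N, Nat.lt_succ_self N, h, hN⟩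
    · obtain ⟨t, ht, h'⟩ := ih h
      exact ⟨t, Nat.lt_succ_of_lt ht, h'⟩

/-- The colours of maximal distance. -/
noncomputable def amax (y : Fin n → Fin d → ℤ) (k j : Fin n) : Finset (Fin d) := by
  classical
  exact univ.filter (fun c => ∀ c', y k c' - y j c' ≤ y k c - y j c)

theorem mem_amax {y : Fin n → Fin d → ℤ} {k j : Fin n} {c : Fin d} :
    c ∈ amax y k j ↔ ∀ c', y k c' - y j c' ≤ y k c - y j c := by
  classical
  unfold amax
  simp

/-- **Lexicographic data give realised holes.** -/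
theorem tRealized_of_lex (hn : 1 ≤ n) (hd : 1 ≤ d) (y : Fin n → Fin d → ℤ)
    (M : Fin n → Fin n → ℕ) (hM : ∀ k j, k ≠ j → ∀ c ∈ amax y k j, (M k j : ℤ) = y k c - y j c)
    (a : ℕ → Fin n → Fin d → ℝ) (N : ℕ) (σ : Fin n → Fin n → Fin d)
    (hσ : ∀ k j, k ≠ j → tie M (amax y) a N k j = {σ k j}) (v : Fin n → Fin d → ℕ)
    (hv : ∀ k c, v k c = (univ.filter (fun j => j ≠ k ∧ σ k j = c)).card) :
    TRealized n d v := by
  classical
  have hσ0 : ∀ k j, k ≠ j → σ k j ∈ amax y k j := by
    intro k j hkj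
    have h1 : σ k j ∈ tie M (amax y) a N k j := by
      rw [hσ k j hkj]
      exact mem_singleton_self _
    exact tie_anti M (amax y) a (Nat.zero_le N) k j h1
  -- the polynomials
  let P : Fin n → Fin n → Fin d → ℕ → ℝ := fun k j c s =>
    ((if s < N then a s k (σ k j) else 0) -
      (if M k j ≤ s ∧ s - M k j < N then a (s - M k j) j (σ k j) else 0)) -
    ((if s < N then a s k c else 0) -
      (if M k j ≤ s ∧ s - M k j < N then a (s - M k j) j c else 0))
  have hPlt : ∀ k j c s, s < N → P k j c s = (a s k (σ k j) - view M a s k j (σ k j)) -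
      (a s k c - view M a s k j c) := by
    intro k j c s hs
    simp only [P, view, hs, if_true]
    by_cases h : M k j ≤ s
    · rw [if_pos ⟨h, by omega⟩, if_pos ⟨h, by omega⟩, if_pos h, if_pos h]
    · rw [if_neg (fun h' => h h'.1), if_neg (fun h' => h h'.1), if_neg h, if_neg h]
  have hpos : ∀ k j c, k ≠ j → c ∈ amax y k j → c ≠ σ k j →
      ∀ᶠ L in 𝓝[>] (0 : ℝ), 0 < ∑ s ∈ range (N + M k j), L ^ s * P k j c s := by
    intro k j c hkj hc hne
    obtain ⟨t, ht, h1, h2⟩ := exists_loss (M := M) (a := a) (N := N) hc (by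
      rw [hσ k j hkj, mem_singleton]
      exact hne)
    have hσt : σ k j ∈ tie M (amax y) a (t + 1) k j := by
      apply tie_anti M (amax y) a (Nat.succ_le_of_lt ht) k j
      rw [hσ k j hkj]
      exact mem_singleton_self _
    refine poly_pos _ _ t (by omega) (fun s hs => ?_) ?_
    · rw [hPlt k j c s (by omega)]
      have h3 : c ∈ tie M (amax y) a (s + 1) k j :=
        tie_anti M (amax y) a (Nat.succ_le_of_lt hs) k j h1
      have h4 : σ k j ∈ tie M (amax y) a (s + 1) k j :=
        tie_anti M (amax y) a (by omega) k j hσt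
      rw [tie_eq h4 h3, sub_self]
    · rw [hPlt k j c t ht]
      have h3 := mem_top.1 hσt
      by_contra hcon
      apply h2
      refine mem_top.2 ⟨h1, fun c' hc' => ?_⟩
      have h4 := h3.2 c' hc'
      linarith
  have hall : ∀ᶠ L in 𝓝[>] (0 : ℝ), ∀ k j c, k ≠ j → c ∈ amax y k j → c ≠ σ k j →
      0 < ∑ s ∈ range (N + M k j), L ^ s * P k j c s := by
    rw [Filter.eventually_all]
    intro k
    rw [Filter.eventually_all]
    intro j
    rw [Filter.eventually_all]
    intro c
    by_cases h : k ≠ j ∧ c ∈ amax y k j ∧ c ≠ σ k j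
    · filter_upwards [hpos k j c h.1 h.2.1 h.2.2] with L hL _ _ _
      exact hL
    · exact Filter.Eventually.of_forall fun L h1 h2 h3 => absurd ⟨h1, h2, h3⟩ h
  obtain ⟨L, hL, hL0⟩ := (hall.and self_mem_nhdsWithin).exists
  have hL0' : 0 < L := hL0
  let A : Fin n → Fin d → ℝ := fun k c => ∑ s ∈ range N, L ^ s * a s k c
  have hsum : ∀ k j c, A k c - L ^ M k j * A j c = ∑ s ∈ range (N + M k j), L ^ s *
      ((if s < N then a s k c else 0) -
        (if M k j ≤ s ∧ s - M k j < N then a (s - M k j) j c else 0)) := by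
    intro k j c
    simp only [mul_sub, Finset.sum_sub_distrib]
    congr 1
    · rw [Finset.sum_range_add]
      have e0 : ∑ x ∈ range (M k j), L ^ (N + x) * (if N + x < N then a (N + x) k c else 0) = 0 := by
        apply Finset.sum_eq_zero
        intro s _
        rw [if_neg (by omega), mul_zero]
      rw [e0, add_zero]
      refine Finset.sum_congr rfl fun s hs => ?_
      rw [if_pos (Finset.mem_range.1 hs)]
    · rw [add_comm N, Finset.sum_range_add, Finset.sum_eq_zero, zero_add, Finset.mul_sum]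
      · refine Finset.sum_congr rfl fun s hs => ?_
        have hs' := Finset.mem_range.1 hs
        rw [if_pos ⟨by omega, by omega⟩, pow_add, Nat.add_sub_cancel_left]
        ring
      · intro s hs
        have hs' := Finset.mem_range.1 hs
        rw [if_neg (by omega), mul_zero]
  have hexp : ∀ k j, k ≠ j → Real.exp (-(-Real.log L * ((y k (σ k j) : ℝ) - (y j (σ k j) : ℝ)))) =
      L ^ M k j := by
    intro k j hkj
    have h1 : ((y k (σ k j) : ℝ) - (y j (σ k j) : ℝ)) = (M k j : ℝ) := by
      have := hM k j hkj _ (hσ0 k j hkj)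
      have h2 : ((M k j : ℤ) : ℝ) = ((y k (σ k j) - y j (σ k j) : ℤ) : ℝ) := by rw [this]
      push_cast at h2
      rw [← h2]
    rw [h1, neg_mul, neg_neg, mul_comm, Real.exp_nat_mul, Real.exp_log hL0']
  refine tRealized_of_twist hn hd (fun k c => (y k c : ℝ)) A (-Real.log L) σ ?_ ?_ v hv
  · intro k j hkj c
    have := (mem_amax.1 (hσ0 k j hkj)) c
    exact_mod_cast this
  · intro k j hkj c hne heq
    rw [hexp k j hkj]
    have hc : c ∈ amax y k j := by
      rw [mem_amax]
      intro c'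
      have h1 := (mem_amax.1 (hσ0 k j hkj)) c'
      have h2 : y k c - y j c = y k (σ k j) - y j (σ k j) := by exact_mod_cast heq
      rw [h2]
      exact h1
    have h1 := hL k j c hkj hc hne
    have h2 : ∑ s ∈ range (N + M k j), L ^ s * P k j c s =
        (A k (σ k j) - L ^ M k j * A j (σ k j)) - (A k c - L ^ M k j * A j c) := by
      rw [hsum, hsum, ← Finset.sum_sub_distrib]
      refine Finset.sum_congr rfl fun s _ => ?_
      simp only [P]
      ring
    rw [h2] at h1
    linarith

end Helper13.TW
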