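import Pool.Agent.Helper13.TW.Equil
import Pool.Agent.Helper13.TS.Fold
import Pool.Agent.Helper28.SP.Perm
import Pool.Agent.Helper58.SO.Intz

set_option autoImplicit false

/-! Theorem E for real points, with merged colours. -/

namespace Helper13.TW

open Finset
open Pool.Agent.Helper28.SO (TreeFam TRealized mergeV Realized)
open Helper13.TS (fold sum_fold fold_mergeV)

variable {n d e : ℕ}

/-- **Theorem E.** -/
theorem tRealized_of_equilibrium (hn : 1 ≤ n) (hd : 1 ≤ d) (y : Fin n → Fin d → ℝ)
    (hne : ∀ k j, k ≠ j → ∃ c c', y k c - y j c ≠ y k c' - y j c') (v : Fin n → Fin d → ℕ)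
    (p : Fin n → Fin n → Fin d → ℝ) (p0 : ∀ k j, k ≠ j → ∀ c, 0 ≤ p k j c)
    (p1 : ∀ k j, k ≠ j → ∑ c, p k j c = 1)
    (p2 : ∀ k j, k ≠ j → ∀ c, p k j c ≠ 0 → ∀ c', y k c' - y j c' ≤ y k c - y j c)
    (hv : ∀ k c, (v k c : ℝ) = ∑ j ∈ univ.erase k, p k j c) : TRealized n d v := by
  classical
  obtain ⟨z, h1, h2, h3⟩ := Pool.Agent.Helper58.SO.exists_int_argmax y
  refine tRealized_of_equilibrium_int hn hd z h3 ?_ v ?_
  · intro k j hkj hz
    obtain ⟨c, c', hc⟩ := hne k j hkj
    exact hc ((h2 k j).2 hz c c')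
  · intro k
    refine ⟨fun j c => if j = k then 0 else p k j c, ⟨fun j c => ?_, fun j c hc => ?_⟩,
      fun j => ?_, fun c => ?_⟩
    · by_cases hj : j = k
      · rw [if_pos hj]
      · rw [if_neg hj]
        exact p0 k j (fun h => hj h.symm) c
    · by_cases hj : j = k
      · simp only [if_pos hj]
      · simp only [if_neg hj]
        by_contra hne'
        exact hc (mem_amax.2 ((h1 k j c).1 (p2 k j (fun h => hj h.symm) c hne')))
    · by_cases hj : j = k
      · simp [hj]
      · simp only [if_neg hj]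
        exact p1 k j fun h => hj h.symm
    · rw [hv k c, ← Finset.add_sum_erase univ _ (mem_univ k)]
      simp only [if_true, zero_add]
      refine Finset.sum_congr rfl fun j hj => ?_
      rw [if_neg (Finset.ne_of_mem_erase hj)]

/-- Merging of colours. -/
theorem tRealized_of_surj (hn : 1 ≤ n) (he : 2 ≤ e) : ∀ (d : ℕ) (v : Fin n → Fin d → ℕ)
    (g : Fin d → Fin e), Function.Surjective g → TRealized n e (fun k => fold g (v k)) →
    TRealized n d v := by
  classical
  intro d
  induction d with
  | zero =>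
    intro v g hg _
    obtain ⟨c, -⟩ := hg ⟨0, by omega⟩
    exact c.elim0
  | succ d ih =>
    intro v g hg h
    by_cases hinj : Function.Injective g
    · have hde : d + 1 = e := by
        have := Fintype.card_of_bijective ⟨hinj, hg⟩
        simpa using this
      subst hde
      let ρ : Equiv.Perm (Fin (d + 1)) := Equiv.ofBijective g ⟨hinj, hg⟩
      have h1 := h.perm_colour ρ
      have h2 : (fun k c => fold g (v k) (ρ c)) = v := by
        funext k c
        unfold Helper13.TS.fold
        have : univ.filter (fun c' => g c' = ρ c) = {c} := by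
          ext c'
          simp only [Finset.mem_filter, Finset.mem_univ, true_and, Finset.mem_singleton]
          exact ⟨fun h => hinj h, fun h => by rw [h]; rfl⟩
        rw [this, Finset.sum_singleton]
      rw [h2] at h1
      exact h1
    · have hcard : e ≤ d := by
        have h1 := Fintype.card_le_of_surjective g hg
        simp only [Fintype.card_fin] at h1
        rcases Nat.eq_or_lt_of_le h1 with h2 | h2
        · exact absurd ((Fintype.bijective_iff_surjective_and_card g).2
            ⟨hg, by simp [h2]⟩).1 hinj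
        · omega
      obtain ⟨z, c, hzc, hne⟩ : ∃ z c, g z = g c ∧ z ≠ c := by
        by_contra h
        push Not at h
        exact hinj fun z c hzc => h z c hzc
      obtain ⟨s, rfl⟩ := Fin.exists_succAbove_eq hne.symm
      refine TRealized.merge hn (by omega) z s v (ih _ (fun c => g (z.succAbove c)) ?_ ?_)
      · intro x
        obtain ⟨c, hc⟩ := hg x
        by_cases hcz : c = z
        · exact ⟨s, by
            show g (z.succAbove s) = x
            rw [← hzc, ← hcz]
            exact hc⟩
        · obtain ⟨c', rfl⟩ := Fin.exists_succAbove_eq hcz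
          exact ⟨c', hc⟩
      · have : (fun k => fold (fun c => g (z.succAbove c)) (mergeV z s (v k))) =
            fun k => fold g (v k) := by
          funext k
          exact fold_mergeV g z s hzc (v k)
        rw [this]
        exact h

/-- The same for a set of positions. -/
theorem realized_of_equilibrium (hn : 1 ≤ n) (he : 2 ≤ e) (U : Finset (Fin d → ℕ))
    (hU : U.card = n) (g : Fin d → Fin e) (hg : Function.Surjective g)
    (y : (Fin d → ℕ) → Fin e → ℝ)
    (hy : ∀ v ∈ U, ∀ w ∈ U, v ≠ w → ∃ c c', y v c - y w c ≠ y v c' - y w c')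
    (p : (Fin d → ℕ) → (Fin d → ℕ) → Fin e → ℝ)
    (p0 : ∀ v ∈ U, ∀ w ∈ U, v ≠ w → ∀ c, 0 ≤ p v w c)
    (p1 : ∀ v ∈ U, ∀ w ∈ U, v ≠ w → ∑ c, p v w c = 1)
    (p2 : ∀ v ∈ U, ∀ w ∈ U, v ≠ w → ∀ c, p v w c ≠ 0 →
      ∀ c', y v c' - y w c' ≤ y v c - y w c)
    (hv : ∀ v ∈ U, ∀ x, ((∑ c ∈ univ.filter (fun c => g c = x), v c : ℕ) : ℝ) =
      ∑ w ∈ U.erase v, p v w x) : Realized n d U := by
  classical
  have hd : 1 ≤ d := by
    obtain ⟨c, -⟩ := hg ⟨0, by omega⟩
    have := c.2
    omega
  let φ : Fin n ≃ U := (finCongr hU.symm).trans U.equivFin.symm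
  let V : Fin n → Fin d → ℕ := fun k => (φ k : Fin d → ℕ)
  have hVU : ∀ k, V k ∈ U := fun k => (φ k).2
  have hinj : Function.Injective V := fun i j hij => φ.injective (Subtype.ext hij)
  have himg : ∀ k, (univ.erase k).image V = U.erase (V k) := by
    intro k
    ext w
    simp only [Finset.mem_image, Finset.mem_erase, Finset.mem_univ, and_true]
    constructor
    · rintro ⟨j, hj, rfl⟩
      exact ⟨fun h => hj (hinj h), hVU j⟩
    · rintro ⟨hne, hw⟩
      refine ⟨φ.symm ⟨w, hw⟩, fun h => hne ?_, ?_⟩
      · show w = V k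
        rw [← h]
        show w = ((φ (φ.symm ⟨w, hw⟩) : U) : Fin d → ℕ)
        rw [Equiv.apply_symm_apply]
      · show ((φ (φ.symm ⟨w, hw⟩) : U) : Fin d → ℕ) = w
        rw [Equiv.apply_symm_apply]
  have hT : TRealized n d V := by
    refine tRealized_of_surj hn he d V g hg ?_
    refine tRealized_of_equilibrium hn (by omega) (fun k => y (V k))
      (fun k j hkj => hy _ (hVU k) _ (hVU j) fun h => hkj (hinj h)) _
      (fun k j => p (V k) (V j)) (fun k j hkj => p0 _ (hVU k) _ (hVU j) fun h => hkj (hinj h))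
      (fun k j hkj => p1 _ (hVU k) _ (hVU j) fun h => hkj (hinj h))
      (fun k j hkj => p2 _ (hVU k) _ (hVU j) fun h => hkj (hinj h)) ?_
    intro k x
    have h1 := hv (V k) (hVU k) x
    show ((fold g (V k) x : ℕ) : ℝ) = _
    unfold Helper13.TS.fold
    rw [h1, ← himg k, Finset.sum_image fun a _ b _ hab => hinj hab]
  refine hT.realized hn hd U ?_
  intro u
  constructor
  · intro hu
    refine ⟨φ.symm ⟨u, hu⟩, ?_⟩
    show ((φ (φ.symm ⟨u, hu⟩) : U) : Fin d → ℕ) = u
    rw [Equiv.apply_symm_apply]
  · rintro ⟨k, rfl⟩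
    exact hVU k

end Helper13.TW
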