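import Pool.Agent.Helper13.TW.DualRows
import Pool.Agent.Helper13.TW.Lex

set_option autoImplicit false

/-! Resolution of the ties, order by order. -/

namespace Helper13.TW

open Finset

variable {n d : ℕ}

/-- `r` is a point of the Minkowski sum of the simplices `S j`, `j ≠ k`. -/
def Feas (k : Fin n) (S : Fin n → Finset (Fin d)) (r : Fin d → ℕ) : Prop :=
  ∃ g : Fin n → Fin d → ℝ, Flow S g ∧ (∀ i, ∑ c, g i c = if i = k then 0 else 1) ∧
    ∀ c, ∑ i, g i c = r c

theorem row_zero {S : Fin n → Finset (Fin d)} {g : Fin n → Fin d → ℝ} (hg : Flow S g) {k : Fin n}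
    (h : ∑ c, g k c = 0) (c : Fin d) : g k c = 0 :=
  (Finset.sum_eq_zero_iff_of_nonneg fun c _ => hg.nonneg k c).1 h c (mem_univ c)

theorem Feas.mono {k : Fin n} {S S' : Fin n → Finset (Fin d)} {r : Fin d → ℕ} (h : Feas k S r)
    (hS : ∀ j, j ≠ k → S j ⊆ S' j) : Feas k S' r := by
  obtain ⟨g, hg, h1, h2⟩ := h
  refine ⟨g, ⟨hg.nonneg, fun i c hc => ?_⟩, h1, h2⟩
  by_cases hi : i = k
  · subst hi
    exact row_zero hg (by rw [h1, if_pos rfl]) c
  · exact hg.supp i c fun h' => hc (hS i hi h')

theorem Feas.nonempty {k : Fin n} {S : Fin n → Finset (Fin d)} {r : Fin d → ℕ} (h : Feas k S r)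
    (j : Fin n) (hj : j ≠ k) : (S j).Nonempty := by
  obtain ⟨g, hg, h1, h2⟩ := h
  by_contra hcon
  rw [Finset.not_nonempty_iff_eq_empty] at hcon
  have h3 := h1 j
  rw [if_neg hj, Finset.sum_eq_zero] at h3
  · exact zero_ne_one h3
  · intro c _
    exact hg.supp j c (by rw [hcon]; exact Finset.notMem_empty c)

/-- Best responses exist. -/
theorem best {k : Fin n} {S : Fin n → Finset (Fin d)} {r : Fin d → ℕ} (h : Feas k S r)
    (b : Fin n → Fin d → ℝ) :
    ∃ α : Fin d → ℝ, Feas k (fun j => top (S j) (fun c => α c - b j c)) r := by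
  obtain ⟨g, hg, h1, h2⟩ := h
  obtain ⟨u, g', hg', h1', h2'⟩ := exists_dual_rows S b _ _ g hg h1 h2
  refine ⟨u, g', ⟨hg'.nonneg, fun i c hc => hg'.supp i c fun h' => hc ?_⟩, h1', h2'⟩
  rw [mem_cut] at h'
  rw [mem_top]
  refine ⟨h'.1, fun c' hc' => ?_⟩
  have := h'.2 c' hc'
  linarith

theorem top_subset (S : Finset (Fin d)) (f : Fin d → ℝ) : top S f ⊆ S := fun _ h => (mem_top.1 h).1

/-- The choice of the origin does not matter. -/
theorem top_congr {S : Finset (Fin d)} {f g : Fin d → ℝ} (κ : ℝ) (h : ∀ c ∈ S, f c = g c + κ) :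
    top S f = top S g := by
  ext c
  rw [mem_top, mem_top]
  constructor
  · rintro ⟨hc, h1⟩
    refine ⟨hc, fun c' hc' => ?_⟩
    have := h1 c' hc'
    rw [h c hc, h c' hc'] at this
    linarith
  · rintro ⟨hc, h1⟩
    refine ⟨hc, fun c' hc' => ?_⟩
    have := h1 c' hc'
    rw [h c hc, h c' hc']
    linarith

theorem top_eq_self {S : Finset (Fin d)} {f : Fin d → ℝ} (h : top S f = S) {c c' : Fin d}
    (hc : c ∈ S) (hc' : c' ∈ S) : f c = f c' := by
  rw [← h] at hc hc'
  have h1 := mem_top.1 hc
  have h2 := mem_top.1 hc'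
  exact le_antisymm (h2.2 c h1.1) (h1.2 c' h2.1)

section

variable {M : Fin n → Fin n → ℕ} {S₀ : Fin n → Fin n → Finset (Fin d)}

theorem view_congr {a a' : ℕ → Fin n → Fin d → ℝ} {t : ℕ} {k j : Fin n} (hM : 1 ≤ M k j)
    (h : ∀ s < t, a s = a' s) : view M a t k j = view M a' t k j := by
  funext c
  unfold view
  by_cases h1 : M k j ≤ t
  · rw [if_pos h1, if_pos h1, h (t - M k j) (by omega)]
  · rw [if_neg h1, if_neg h1]

theorem tie_congr {a a' : ℕ → Fin n → Fin d → ℝ} {t : ℕ} (h : ∀ s < t, a s = a' s) (k j : Fin n) :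
    tie M S₀ a t k j = tie M S₀ a' t k j := by
  induction t with
  | zero => rfl
  | succ t ih =>
    have ih' := ih fun s hs => h s (Nat.lt_succ_of_lt hs)
    show top (tie M S₀ a t k j) _ = top (tie M S₀ a' t k j) _
    rw [ih']
    congr 1
    funext c
    rw [h t (Nat.lt_succ_self t)]
    congr 1
    unfold view
    by_cases h1 : M k j ≤ t
    · rw [if_pos h1, if_pos h1, h (t - M k j) (by omega)]
    · rw [if_neg h1, if_neg h1]

/-- The holes are still possible. -/
def Inv (M : Fin n → Fin n → ℕ) (S₀ : Fin n → Fin n → Finset (Fin d)) (r : Fin n → Fin d → ℕ)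
    (a : ℕ → Fin n → Fin d → ℝ) (t : ℕ) : Prop := ∀ k, Feas k (tie M S₀ a t k) (r k)

variable {r : Fin n → Fin d → ℕ}

theorem Inv.congr {a a' : ℕ → Fin n → Fin d → ℝ} {t : ℕ} (h : ∀ s < t, a s = a' s)
    (hi : Inv M S₀ r a t) : Inv M S₀ r a' t := by
  intro k
  have : tie M S₀ a' t k = tie M S₀ a t k := by
    funext j
    exact (tie_congr h k j).symm
  rw [this]
  exact hi k

theorem tie_update (hM : ∀ k j, k ≠ j → 1 ≤ M k j) (a : ℕ → Fin n → Fin d → ℝ) (t : ℕ)
    (f : Fin n → Fin d → ℝ) (k j : Fin n) (hkj : k ≠ j) :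
    tie M S₀ (Function.update a t f) (t + 1) k j =
      top (tie M S₀ a t k j) (fun c => f k c - view M a t k j c) := by
  have h : ∀ s < t, Function.update a t f s = a s := fun s hs =>
    Function.update_of_ne (by omega) _ _
  show top (tie M S₀ (Function.update a t f) t k j) _ = _
  rw [tie_congr h k j, Function.update_self, view_congr (hM k j hkj) h]

theorem Inv.update (hM : ∀ k j, k ≠ j → 1 ≤ M k j) {a : ℕ → Fin n → Fin d → ℝ} {t : ℕ}
    (f : Fin n → Fin d → ℝ)
    (hf : ∀ k, Feas k (fun j => top (tie M S₀ a t k j) (fun c => f k c - view M a t k j c))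
      (r k)) : Inv M S₀ r (Function.update a t f) (t + 1) := by
  intro k
  refine (hf k).mono fun j hj => ?_
  rw [tie_update hM a t f k j fun h => hj h.symm]

/-- A tie can be broken. -/
theorem progress (y : Fin n → Fin d → ℤ) (hM1 : ∀ k j, k ≠ j → 1 ≤ M k j)
    (hM2 : ∀ k j, k ≠ j → ∀ c, y k c - y j c ≤ M k j)
    (hM : ∀ k j, k ≠ j → ∀ c ∈ amax y k j, (M k j : ℤ) = y k c - y j c)
    (a : ℕ → Fin n → Fin d → ℝ) (t₀ : ℕ) (hInv : Inv M (amax y) r a t₀)
    (hact : ∃ k j, k ≠ j ∧ 2 ≤ (tie M (amax y) a t₀ k j).card) :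
    ∃ a' t₁, Inv M (amax y) r a' t₁ ∧
      (∀ k j, k ≠ j → tie M (amax y) a' t₁ k j ⊆ tie M (amax y) a t₀ k j) ∧
      ∃ k j, k ≠ j ∧ tie M (amax y) a' t₁ k j ≠ tie M (amax y) a t₀ k j := by
  classical
  by_contra hcon
  have NB : ∀ a' t₁, Inv M (amax y) r a' t₁ →
      (∀ k j, k ≠ j → tie M (amax y) a' t₁ k j ⊆ tie M (amax y) a t₀ k j) →
      ∀ k j, k ≠ j → tie M (amax y) a' t₁ k j = tie M (amax y) a t₀ k j := by
    intro a' t₁ h1 h2 k j hkj
    by_contra h3
    exact hcon ⟨a', t₁, h1, h2, k, j, hkj, h3⟩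
  set S : Fin n → Fin n → Finset (Fin d) := fun k j => tie M (amax y) a t₀ k j with hS
  -- extensions of the given data
  have NB' : ∀ a' t₁, t₀ ≤ t₁ → (∀ s < t₀, a' s = a s) → Inv M (amax y) r a' t₁ →
      ∀ k j, k ≠ j → tie M (amax y) a' t₁ k j = S k j := by
    intro a' t₁ ht h1 h2
    apply NB a' t₁ h2
    intro k j _
    rw [← tie_congr (a := a') (a' := a) h1 k j]
    exact tie_anti M (amax y) a' ht k j
  have hstep : ∀ a' t₁, t₀ ≤ t₁ → (∀ s < t₀, a' s = a s) → Inv M (amax y) r a' t₁ →
      ∀ f : Fin n → Fin d → ℝ,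
      (∀ k, Feas k (fun j => top (S k j) (fun c => f k c - view M a' t₁ k j c)) (r k)) →
      Inv M (amax y) r (Function.update a' t₁ f) (t₁ + 1) ∧
      ∀ k j, k ≠ j → top (S k j) (fun c => f k c - view M a' t₁ k j c) = S k j := by
    intro a' t₁ ht h1 h2 f hf
    have h3 := NB' a' t₁ ht h1 h2
    have h4 : Inv M (amax y) r (Function.update a' t₁ f) (t₁ + 1) := by
      apply Inv.update hM1 f
      intro k
      refine (hf k).mono fun j hj => ?_
      rw [h3 k j fun h => hj h.symm]
    refine ⟨h4, fun k j hkj => ?_⟩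
    have h5 := NB' (Function.update a' t₁ f) (t₁ + 1) (by omega) (fun s hs => by
      rw [Function.update_of_ne (by omega)]
      exact h1 s hs) h4 k j hkj
    rw [tie_update hM1 a' t₁ f k j hkj, h3 k j hkj] at h5
    exact h5
  have hresp : ∀ a' t₁, t₀ ≤ t₁ → (∀ s < t₀, a' s = a s) → Inv M (amax y) r a' t₁ →
      ∀ k, ∃ α : Fin d → ℝ,
        Feas k (fun j => top (S k j) (fun c => α c - view M a' t₁ k j c)) (r k) := by
    intro a' t₁ ht h1 h2 k
    obtain ⟨α, hα⟩ := best (h2 k) (fun j => view M a' t₁ k j)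
    refine ⟨α, hα.mono fun j hj => ?_⟩
    rw [NB' a' t₁ ht h1 h2 k j fun h => hj h.symm]
  -- every hole is in the relative interior
  have relint : ∀ k (β : Fin d → ℝ), Feas k (fun j => top (S k j) β) (r k) →
      ∀ j, k ≠ j → top (S k j) β = S k j := by
    intro k β hβ j hkj
    choose f hf using hresp a t₀ le_rfl (fun _ _ => rfl) hInv
    have h1 := (hstep a t₀ le_rfl (fun _ _ => rfl) hInv f hf).2
    have h2 : ∀ j, k ≠ j → top (S k j) (fun c => (f k c + β c) - view M a t₀ k j c) =
        top (S k j) β := by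
      intro j hkj
      obtain ⟨c₀, hc₀⟩ := (hInv k).nonempty j fun h => hkj h.symm
      refine top_congr (f k c₀ - view M a t₀ k j c₀) fun c hc => ?_
      have := top_eq_self (h1 k j hkj) hc hc₀
      linarith
    have h3 := (hstep a t₀ le_rfl (fun _ _ => rfl) hInv
      (Function.update f k (fun c => f k c + β c)) (fun k' => by
        by_cases hk : k' = k
        · subst hk
          rw [Function.update_self]
          refine hβ.mono fun j hj => ?_
          rw [h2 j fun h => hj h.symm]
        · rw [Function.update_of_ne hk]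
          exact hf k')).2 k j hkj
    rw [Function.update_self, h2 j hkj] at h3
    exact h3
  -- the unperturbed run
  have hrun0 : ∀ T : ℕ, ∃ a0 : ℕ → Fin n → Fin d → ℝ, (∀ s < t₀, a0 s = a s) ∧
      ∀ t, t₀ ≤ t → t ≤ t₀ + T → Inv M (amax y) r a0 t := by
    intro T
    induction T with
    | zero =>
      refine ⟨a, fun _ _ => rfl, fun t h1 h2 => ?_⟩
      have : t = t₀ := by omega
      rw [this]
      exact hInv
    | succ T ih =>
      obtain ⟨a0, h1, h2⟩ := ih
      choose f hf using hresp a0 (t₀ + T) (by omega) h1 (h2 _ (by omega) le_rfl)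
      have h3 := (hstep a0 (t₀ + T) (by omega) h1 (h2 _ (by omega) le_rfl) f hf).1
      refine ⟨Function.update a0 (t₀ + T) f, fun s hs => ?_, fun t ht1 ht2 => ?_⟩
      · rw [Function.update_of_ne (by omega)]
        exact h1 s hs
      · by_cases ht : t ≤ t₀ + T
        · refine (h2 t ht1 ht).congr fun s hs => ?_
          rw [Function.update_of_ne (by omega)]
        · have : t = t₀ + T + 1 := by omega
          rw [this]
          exact h3
  -- the colour and the label
  obtain ⟨k₀, j₀, hkj₀, hcard₀⟩ := hact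
  obtain ⟨p, hp₀⟩ : (S k₀ j₀).Nonempty :=
    Finset.card_pos.1 (lt_of_lt_of_le Nat.zero_lt_two hcard₀)
  let A : Finset (Fin n) := univ.filter (fun j => ∃ l, j ≠ l ∧ p ∈ S j l ∧ 2 ≤ (S j l).card)
  obtain ⟨j, hjA, hjmin⟩ := Finset.exists_min_image A (fun j => y j p)
    ⟨k₀, by
      simp only [A, Finset.mem_filter, Finset.mem_univ, true_and]
      exact ⟨j₀, hkj₀, hp₀, hcard₀⟩⟩
  simp only [A, Finset.mem_filter, Finset.mem_univ, true_and] at hjA hjmin
  obtain ⟨l₁, hjl, hpS, hcard⟩ := hjA
  have hmin : ∀ l l', y l p < y j p → l ≠ l' → p ∈ S l l' → (S l l').card < 2 := by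
    intro l l' h1 h2 h3
    by_contra h4
    have := hjmin l ⟨l', h2, h3, by omega⟩
    omega
  have hSamax : ∀ k j, S k j ⊆ amax y k j := fun k j => tie_anti M (amax y) a (Nat.zero_le t₀) k j
  have hT : (M j l₁ : ℤ) = y j p - y l₁ p := hM j l₁ hjl p (hSamax j l₁ hpS)
  have hl1j : y l₁ p < y j p := by
    have := hM1 j l₁ hjl
    omega
  obtain ⟨a0, h01, h02⟩ := hrun0 (M j l₁ + 1)
  -- the perturbed run
  have hrun1 : ∀ T : ℕ, T ≤ M j l₁ → ∃ a1 : ℕ → Fin n → Fin d → ℝ, (∀ s < t₀, a1 s = a s) ∧
      (a1 t₀ = fun k c => a0 t₀ k c + if k = l₁ ∧ c = p then 1 else 0) ∧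
      (∀ t, t₀ < t → t < t₀ + (T + 1) → ∀ k,
        (∀ l, k ≠ l → ∃ κ : ℝ, ∀ c ∈ S k l, view M a1 t k l c = view M a0 t k l c + κ) →
        a1 t k = a0 t k) ∧
      ∀ t, t₀ ≤ t → t ≤ t₀ + (T + 1) → Inv M (amax y) r a1 t := by
    intro T
    induction T with
    | zero =>
      intro _
      set f : Fin n → Fin d → ℝ := fun k c => a0 t₀ k c + if k = l₁ ∧ c = p then 1 else 0 with hf
      have hI0 := h02 t₀ le_rfl (by omega)
      have hI1 := h02 (t₀ + 1) (by omega) (by omega)
      have htop : ∀ k l, k ≠ l → top (S k l) (fun c => f k c - view M a0 t₀ k l c) = S k l := by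
        intro k l hkl
        have h1 := NB' a0 (t₀ + 1) (by omega) h01 hI1 k l hkl
        have h2 : tie M (amax y) a0 (t₀ + 1) k l =
            top (S k l) (fun c => a0 t₀ k c - view M a0 t₀ k l c) := by
          show top (tie M (amax y) a0 t₀ k l) _ = _
          rw [NB' a0 t₀ le_rfl h01 hI0 k l hkl]
        rw [h2] at h1
        by_cases hk : k = l₁
        · subst hk
          by_cases hpl : p ∈ S k l
          · -- a single colour
            have h3 := hmin k l hl1j hkl hpl
            have h4 : S k l = {p} := by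
              apply Finset.eq_singleton_iff_unique_mem.2
              refine ⟨hpl, fun c hc => ?_⟩
              by_contra hne
              have : 1 < (S k l).card := Finset.one_lt_card.2 ⟨c, hc, p, hpl, hne⟩
              omega
            ext c
            rw [mem_top, h4, mem_singleton]
            refine ⟨fun h => h.1, fun h => ⟨h, fun c' hc' => ?_⟩⟩
            rw [mem_singleton.1 hc', h]
          · rw [← h1]
            rw [h1]
            refine (top_congr 0 fun c hc => ?_).trans h1
            have : c ≠ p := fun h => hpl (h ▸ hc)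
            simp only [hf, this, and_false, if_false, add_zero]
        · refine (top_congr 0 fun c hc => ?_).trans h1
          simp only [hf, hk, false_and, if_false, add_zero]
      refine ⟨Function.update a0 t₀ f, fun s hs => ?_, ?_, fun t h1 h2 => by omega,
        fun t h1 h2 => ?_⟩
      · rw [Function.update_of_ne (by omega)]
        exact h01 s hs
      · rw [Function.update_self]
      · by_cases ht : t = t₀
        · rw [ht]
          refine hI0.congr fun s hs => ?_
          rw [Function.update_of_ne (by omega)]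
        · have : t = t₀ + 1 := by omega
          rw [this]
          refine (hstep a0 t₀ le_rfl h01 hI0 f fun k => ?_).1
          refine (hInv k).mono fun l hl => ?_
          rw [htop k l fun h => hl h.symm]
    | succ T ih =>
      intro hT1
      obtain ⟨a1, b1, b2, b3, b4⟩ := ih (by omega)
      have hI1 := b4 (t₀ + (T + 1)) (by omega) le_rfl
      choose f hf using hresp a1 (t₀ + (T + 1)) (by omega) b1 hI1
      let C : Fin n → Prop := fun k => ∀ l, k ≠ l → ∃ κ : ℝ, ∀ c ∈ S k l,
        view M a1 (t₀ + (T + 1)) k l c = view M a0 (t₀ + (T + 1)) k l c + κ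
      let f' : Fin n → Fin d → ℝ := fun k => if C k then a0 (t₀ + (T + 1)) k else f k
      have hf' : ∀ k, Feas k (fun l => top (S k l)
          (fun c => f' k c - view M a1 (t₀ + (T + 1)) k l c)) (r k) := by
        intro k
        by_cases hC : C k
        · have e : f' k = a0 (t₀ + (T + 1)) k := if_pos hC
          rw [e]
          have hI0 := h02 (t₀ + (T + 1)) (by omega) (by omega)
          have hI0' := h02 (t₀ + (T + 1) + 1) (by omega) (by omega)
          refine (hInv k).mono fun l hl => ?_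
          have hkl : k ≠ l := fun h => hl h.symm
          obtain ⟨κ, hκ⟩ := hC l hkl
          have h1 := NB' a0 (t₀ + (T + 1) + 1) (by omega) h01 hI0' k l hkl
          have h2 : tie M (amax y) a0 (t₀ + (T + 1) + 1) k l =
              top (S k l) (fun c => a0 (t₀ + (T + 1)) k c - view M a0 (t₀ + (T + 1)) k l c) := by
            show top (tie M (amax y) a0 (t₀ + (T + 1)) k l) _ = _
            rw [NB' a0 (t₀ + (T + 1)) (by omega) h01 hI0 k l hkl]
          rw [h2] at h1
          have h3 : top (S k l) (fun c => a0 (t₀ + (T + 1)) k c -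
              view M a1 (t₀ + (T + 1)) k l c) = S k l := by
            refine (top_congr (-κ) fun c hc => ?_).trans h1
            rw [hκ c hc]
            ring
          exact (Finset.subset_of_eq h3.symm)
        · have e : f' k = f k := if_neg hC
          rw [e]
          exact hf k
      have h3 := (hstep a1 (t₀ + (T + 1)) (by omega) b1 hI1 f' hf').1
      have hv : ∀ t, t ≤ t₀ + (T + 1) → ∀ k l, k ≠ l →
          view M (Function.update a1 (t₀ + (T + 1)) f') t k l = view M a1 t k l := by
        intro t ht k l hkl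
        apply view_congr (hM1 k l hkl)
        intro s hs
        rw [Function.update_of_ne (by omega)]
      refine ⟨Function.update a1 (t₀ + (T + 1)) f', fun s hs => ?_, ?_, ?_, ?_⟩
      · rw [Function.update_of_ne (by omega)]
        exact b1 s hs
      · rw [Function.update_of_ne (by omega)]
        exact b2
      · intro t ht1 ht2 k hk
        by_cases ht : t = t₀ + (T + 1)
        · subst ht
          rw [Function.update_self]
          have hC : C k := by
            intro l hkl
            obtain ⟨κ, hκ⟩ := hk l hkl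
            rw [hv _ le_rfl k l hkl] at hκ
            exact ⟨κ, hκ⟩
          exact if_pos hC
        · rw [Function.update_of_ne ht]
          refine b3 t ht1 (by omega) k fun l hkl => ?_
          obtain ⟨κ, hκ⟩ := hk l hkl
          rw [hv t (by omega) k l hkl] at hκ
          exact ⟨κ, hκ⟩
      · intro t ht1 ht2
        by_cases ht : t ≤ t₀ + (T + 1)
        · refine (b4 t ht1 ht).congr fun s hs => ?_
          rw [Function.update_of_ne (by omega)]
        · have : t = t₀ + (T + 1) + 1 := by omega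
          rw [this]
          exact h3
  obtain ⟨a1, b1, b2, b3, b4⟩ := hrun1 (M j l₁) le_rfl
  have h001 : ∀ s < t₀, a1 s = a0 s := fun s hs => by rw [b1 s hs, h01 s hs]
  -- a difference is seen only if it was there
  have hdiff : ∀ t k l, k ≠ l → (¬ ∃ κ : ℝ, ∀ c ∈ S k l, view M a1 t k l c =
      view M a0 t k l c + κ) → M k l ≤ t ∧ t₀ ≤ t - M k l ∧ a1 (t - M k l) l ≠ a0 (t - M k l) l := by
    intro t k l hkl hno
    have h1 : M k l ≤ t := by
      by_contra h
      refine hno ⟨0, fun c _ => ?_⟩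
      unfold view
      rw [if_neg h, if_neg h, add_zero]
    have h2 : a1 (t - M k l) l ≠ a0 (t - M k l) l := by
      intro h
      refine hno ⟨0, fun c _ => ?_⟩
      unfold view
      rw [if_pos h1, if_pos h1, h, add_zero]
    refine ⟨h1, ?_, h2⟩
    by_contra h3
    exact h2 (by rw [h001 _ (by omega)])
  have hexno : ∀ t, t₀ < t → t < t₀ + (M j l₁ + 1) → ∀ k, a1 t k ≠ a0 t k →
      ∃ l, k ≠ l ∧ ¬ ∃ κ : ℝ, ∀ c ∈ S k l, view M a1 t k l c = view M a0 t k l c + κ := by
    intro t ht1 ht2 k hne
    by_contra h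
    push Not at h
    exact hne (b3 t ht1 ht2 k fun l hkl => by
      obtain ⟨κ, hκ⟩ := h l hkl
      exact ⟨κ, hκ⟩)
  have hseed : ∀ l, a1 t₀ l ≠ a0 t₀ l → l = l₁ := by
    intro l h
    by_contra hl
    apply h
    rw [b2]
    funext c
    simp only [hl, false_and, if_false, add_zero]
  have claim3 : ∀ t, t₀ ≤ t → t < t₀ + (M j l₁ + 1) → ∀ l, a1 t l ≠ a0 t l →
      y l p - y l₁ p ≤ (t : ℤ) - t₀ := by
    intro t
    induction t using Nat.strong_induction_on with
    | _ t ih =>
      intro ht1 ht2 l hne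
      rcases Nat.eq_or_lt_of_le ht1 with h | h
      · subst h
        rw [hseed l hne]
        simp
      · obtain ⟨l2, hl2, hno⟩ := hexno t h ht2 l hne
        obtain ⟨c1, c2, c3⟩ := hdiff t l l2 hl2 hno
        have hm := hM1 l l2 hl2
        have h5 := ih (t - M l l2) (by omega) c2 (by omega) l2 c3
        have h6 := hM2 l l2 hl2 p
        have h7 : ((t - M l l2 : ℕ) : ℤ) = (t : ℤ) - M l l2 := by omega
        rw [h7] at h5
        omega
  have claim4 : ∀ t, t₀ ≤ t → t < t₀ + (M j l₁ + 1) → ∀ l, l ≠ l₁ → y l p < y j p →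
      (t : ℤ) = t₀ + (y l p - y l₁ p) → a1 t l = a0 t l := by
    intro t
    induction t using Nat.strong_induction_on with
    | _ t ih =>
      intro ht1 ht2 l hl hlj hteq
      by_contra hne
      rcases Nat.eq_or_lt_of_le ht1 with h | h
      · subst h
        exact hl (hseed l hne)
      · obtain ⟨l2, hl2, hno⟩ := hexno t h ht2 l hne
        obtain ⟨c1, c2, c3⟩ := hdiff t l l2 hl2 hno
        have hm := hM1 l l2 hl2
        have h5 := claim3 (t - M l l2) c2 (by omega) l2 c3
        have h6 := hM2 l l2 hl2 p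
        have h7 : ((t - M l l2 : ℕ) : ℤ) = (t : ℤ) - M l l2 := by omega
        rw [h7] at h5
        have h8 : (M l l2 : ℤ) = y l p - y l2 p := by omega
        by_cases hl21 : l2 = l₁
        · subst hl21
          have h9 : t - M l l2 = t₀ := by omega
          apply hno
          by_cases hpS' : p ∈ S l l2
          · have h10 := hmin l l2 hlj hl2 hpS'
            have h11 : S l l2 = {p} := by
              apply Finset.eq_singleton_iff_unique_mem.2
              refine ⟨hpS', fun c hc => ?_⟩
              by_contra hne'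
              have : 1 < (S l l2).card := Finset.one_lt_card.2 ⟨c, hc, p, hpS', hne'⟩
              omega
            refine ⟨1, fun c hc => ?_⟩
            rw [h11, mem_singleton] at hc
            subst hc
            unfold view
            rw [if_pos c1, if_pos c1, h9, b2]
            simp
          · refine ⟨0, fun c hc => ?_⟩
            have hcp : c ≠ p := fun h => hpS' (h ▸ hc)
            unfold view
            rw [if_pos c1, if_pos c1, h9, b2]
            simp [hcp]
        · exact c3 (ih (t - M l l2) (by omega) c2 (by omega) l2 hl21 (by omega) (by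
            rw [h7]
            omega))
  -- the view of `j` at the time `t₀ + M j l₁`
  have claim5 : ∀ l, j ≠ l → l ≠ l₁ → ∀ c, view M a1 (t₀ + M j l₁) j l c =
      view M a0 (t₀ + M j l₁) j l c := by
    intro l hjl' hl c
    unfold view
    by_cases h1 : M j l ≤ t₀ + M j l₁
    · rw [if_pos h1, if_pos h1]
      by_cases h2 : t₀ ≤ t₀ + M j l₁ - M j l
      · have hm := hM1 j l hjl'
        by_contra hne
        have hne' : a1 (t₀ + M j l₁ - M j l) l ≠ a0 (t₀ + M j l₁ - M j l) l := fun h =>
          hne (by rw [h])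
        have h3 := claim3 _ h2 (by omega) l hne'
        have h4 := hM2 j l hjl' p
        have h5 : ((t₀ + M j l₁ - M j l : ℕ) : ℤ) = (t₀ : ℤ) + M j l₁ - M j l := by omega
        rw [h5] at h3
        exact hne' (claim4 _ h2 (by omega) l hl (by omega) (by
          rw [h5]
          omega))
      · rw [h001 _ (by omega)]
    · rw [if_neg h1, if_neg h1]
  have claim5' : ∀ c, view M a1 (t₀ + M j l₁) j l₁ c =
      view M a0 (t₀ + M j l₁) j l₁ c + if c = p then 1 else 0 := by
    intro c
    unfold view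
    rw [if_pos (by omega), if_pos (by omega)]
    have : t₀ + M j l₁ - M j l₁ = t₀ := by omega
    rw [this, b2]
    simp
  -- both views are trivial
  have hI0 := h02 (t₀ + M j l₁ + 1) (by omega) (by omega)
  have hI1 := b4 (t₀ + M j l₁ + 1) (by omega) (by omega)
  let ξ : Fin d → ℝ := fun c => a1 (t₀ + M j l₁) j c - a0 (t₀ + M j l₁) j c
  have hξ : ∀ l, j ≠ l → ∀ c ∈ S j l, ∀ c' ∈ S j l, ξ c - ξ c' =
      (view M a1 (t₀ + M j l₁) j l c - view M a0 (t₀ + M j l₁) j l c) -
      (view M a1 (t₀ + M j l₁) j l c' - view M a0 (t₀ + M j l₁) j l c') := by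
    intro l hjl' c hc c' hc'
    have h1 := NB' a0 (t₀ + M j l₁ + 1) (by omega) h01 hI0 j l hjl'
    have h2 := NB' a1 (t₀ + M j l₁ + 1) (by omega) b1 hI1 j l hjl'
    have h3 := tie_eq (M := M) (S₀ := amax y) (a := a0) (t := t₀ + M j l₁) (k := j) (j := l)
      (c := c) (c' := c') (by rw [h1]; exact hc) (by rw [h1]; exact hc')
    have h4 := tie_eq (M := M) (S₀ := amax y) (a := a1) (t := t₀ + M j l₁) (k := j) (j := l)
      (c := c) (c' := c') (by rw [h2]; exact hc) (by rw [h2]; exact hc')
    simp only [ξ]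
    linarith
  have hξl : ∀ l, j ≠ l → l ≠ l₁ → ∀ c ∈ S j l, ∀ c' ∈ S j l, ξ c = ξ c' := by
    intro l hjl' hl c hc c' hc'
    have h1 := hξ l hjl' c hc c' hc'
    rw [claim5 l hjl' hl, claim5 l hjl' hl] at h1
    linarith
  have hξ1 : ∀ c ∈ S j l₁, c ≠ p → ξ c = ξ p - 1 := by
    intro c hc hcp
    have h1 := hξ l₁ hjl c hc p hpS
    rw [claim5', claim5', if_neg hcp, if_pos rfl] at h1
    linarith
  let Z : Finset (Fin d) := univ.filter (fun c => ξ c = ξ p)
  obtain ⟨g, hg, hg1, hg2⟩ := hInv j
  have hpZ : p ∈ Z := by simp [Z]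
  have hZ1 : ∀ c ∈ S j l₁, c ≠ p → c ∉ Z := by
    intro c hc hcp hcZ
    have h1 := hξ1 c hc hcp
    have h2 : ξ c = ξ p := by simpa [Z] using hcZ
    linarith
  have hcol : ∀ l, l ≠ j → l ≠ l₁ → (∑ c ∈ Z, g l c = 0) ∨ (∑ c ∈ Z, g l c = 1) := by
    intro l hlj hl
    by_cases h : ∃ c ∈ S j l, c ∈ Z
    · right
      obtain ⟨c, hc, hcZ⟩ := h
      have h1 : ∑ c ∈ Z, g l c = ∑ c, g l c := by
        refine Finset.sum_subset (Finset.subset_univ _) fun c' _ hc' => ?_
        apply hg.supp l c'
        intro hc''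
        apply hc'
        have h2 := hξl l (fun h => hlj h.symm) hl c' hc'' c hc
        have h3 : ξ c = ξ p := by simpa [Z] using hcZ
        simp only [Z, Finset.mem_filter, Finset.mem_univ, true_and]
        rw [h2, h3]
      rw [h1, hg1 l, if_neg hlj]
    · left
      push Not at h
      apply Finset.sum_eq_zero
      intro c hcZ
      exact hg.supp l c fun hc => h c hc hcZ
  have hsplit : ∑ c ∈ Z, ((r j c : ℕ) : ℝ) = (∑ l ∈ univ.filter (fun l => l ≠ j ∧ l ≠ l₁),
      ∑ c ∈ Z, g l c) + g l₁ p := by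
    have e1 : ∑ c ∈ Z, ((r j c : ℕ) : ℝ) = ∑ l, ∑ c ∈ Z, g l c := by
      rw [Finset.sum_comm]
      exact Finset.sum_congr rfl fun c _ => (hg2 c).symm
    rw [e1, ← Finset.sum_filter_add_sum_filter_not univ (fun l => l ≠ j ∧ l ≠ l₁)]
    congr 1
    have e2 : univ.filter (fun l : Fin n => ¬ (l ≠ j ∧ l ≠ l₁)) = {j, l₁} := by
      ext l
      simp only [Finset.mem_filter, Finset.mem_univ, true_and, Finset.mem_insert,
        Finset.mem_singleton]
      tauto
    rw [e2, Finset.sum_pair hjl]
    have e3 : ∑ c ∈ Z, g j c = 0 := by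
      apply Finset.sum_eq_zero
      intro c _
      exact row_zero hg (by rw [hg1, if_pos rfl]) c
    have e4 : ∑ c ∈ Z, g l₁ c = g l₁ p := by
      apply Finset.sum_eq_single_of_mem p hpZ
      intro c hcZ hcp
      exact hg.supp l₁ c fun hc => hZ1 c hc hcp hcZ
    rw [e3, e4, zero_add]
  have hint : ∃ m : ℤ, (∑ l ∈ univ.filter (fun l => l ≠ j ∧ l ≠ l₁), ∑ c ∈ Z, g l c) = m := by
    refine ⟨∑ l ∈ univ.filter (fun l => l ≠ j ∧ l ≠ l₁), if ∑ c ∈ Z, g l c = 1 then 1 else 0, ?_⟩
    push_cast
    refine Finset.sum_congr rfl fun l hl => ?_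
    simp only [Finset.mem_filter, Finset.mem_univ, true_and] at hl
    rcases hcol l hl.1 hl.2 with h | h
    · rw [h]
      simp
    · rw [h]
      simp
  obtain ⟨m, hm⟩ := hint
  have hgle : g l₁ p ≤ 1 := by
    have h1 := hg1 l₁
    rw [if_neg (fun h => hjl h.symm)] at h1
    rw [← h1]
    exact Finset.single_le_sum (fun c _ => hg.nonneg l₁ c) (mem_univ p)
  have hg01 : g l₁ p = 0 ∨ g l₁ p = 1 := by
    have h1 : g l₁ p = (((∑ c ∈ Z, (r j c : ℤ)) - m : ℤ) : ℝ) := by
      push_cast
      rw [hm] at hsplit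
      linarith
    have h2 := hg.nonneg l₁ p
    rw [h1] at h2 hgle ⊢
    have h3 : (0 : ℤ) ≤ (∑ c ∈ Z, (r j c : ℤ)) - m := by exact_mod_cast h2
    have h4 : (∑ c ∈ Z, (r j c : ℤ)) - m ≤ (1 : ℤ) := by exact_mod_cast hgle
    rcases (by omega : (∑ c ∈ Z, (r j c : ℤ)) - m = 0 ∨ (∑ c ∈ Z, (r j c : ℤ)) - m = 1) with h | h
    · left
      rw [h]
      simp
    · right
      rw [h]
      simp
  obtain ⟨q, hqS, hqp⟩ : ∃ q ∈ S j l₁, q ≠ p := by
    by_contra h
    push Not at h
    have : (S j l₁).card ≤ 1 := Finset.card_le_one.2 fun a ha b hb => by rw [h a ha, h b hb]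
    omega
  have hconst : ∀ (β : ℝ) l, j ≠ l → l ≠ l₁ → top (S j l) (fun c => if c ∈ Z then β else 0) =
      S j l := by
    intro β l hjl' hl
    ext c
    rw [mem_top]
    refine ⟨fun h => h.1, fun hc => ⟨hc, fun c' hc' => le_of_eq ?_⟩⟩
    have h1 := hξl l hjl' hl c hc c' hc'
    have h2 : c ∈ Z ↔ c' ∈ Z := by
      simp only [Z, Finset.mem_filter, Finset.mem_univ, true_and]
      rw [h1]
    by_cases h3 : c ∈ Z
    · rw [if_pos h3, if_pos (h2.1 h3)]
    · rw [if_neg h3, if_neg fun h => h3 (h2.2 h)]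
  rcases hg01 with h0 | h1
  · -- the colour `p` is not used
    have hF : Feas j (fun l => top (S j l) (fun c => if c ∈ Z then (-1 : ℝ) else 0)) (r j) := by
      refine ⟨g, ⟨hg.nonneg, fun l c hc => ?_⟩, hg1, hg2⟩
      by_cases hlj : l = j
      · rw [hlj]
        exact row_zero hg (by rw [hg1, if_pos rfl]) c
      · by_cases hl : l = l₁
        · rw [hl] at hc ⊢
          by_cases hcS : c ∈ S j l₁
          · by_cases hcp : c = p
            · rw [hcp]
              exact h0
            · exfalso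
              apply hc
              rw [mem_top]
              refine ⟨hcS, fun c' _ => ?_⟩
              rw [if_neg (hZ1 c hcS hcp)]
              split_ifs <;> norm_num
          · exact hg.supp l₁ c hcS
        · apply hg.supp l c
          rw [hconst (-1) l (fun h => hlj h.symm) hl] at hc
          exact hc
    have h1 := relint j _ hF l₁ hjl
    have h2 := top_eq_self h1 hpS hqS
    rw [if_pos hpZ, if_neg (hZ1 q hqS hqp)] at h2
    norm_num at h2
  · -- only the colour `p` is used
    have hF : Feas j (fun l => top (S j l) (fun c => if c ∈ Z then (1 : ℝ) else 0)) (r j) := by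
      refine ⟨g, ⟨hg.nonneg, fun l c hc => ?_⟩, hg1, hg2⟩
      by_cases hlj : l = j
      · rw [hlj]
        exact row_zero hg (by rw [hg1, if_pos rfl]) c
      · by_cases hl : l = l₁
        · rw [hl] at hc ⊢
          by_cases hcp : c = p
          · exfalso
            apply hc
            rw [hcp, mem_top]
            refine ⟨hpS, fun c' _ => ?_⟩
            rw [if_pos hpZ]
            split_ifs <;> norm_num
          · have h2 : ∑ c, g l₁ c = 1 := by rw [hg1, if_neg (fun h => hjl h.symm)]
            have h3 : g l₁ c + g l₁ p ≤ ∑ c, g l₁ c := by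
              calc g l₁ c + g l₁ p = ∑ b ∈ ({c, p} : Finset (Fin d)), g l₁ b := by
                    rw [Finset.sum_pair hcp]
                _ ≤ _ := Finset.sum_le_sum_of_subset_of_nonneg (Finset.subset_univ _)
                    fun b _ _ => hg.nonneg l₁ b
            have h4 := hg.nonneg l₁ c
            linarith
        · apply hg.supp l c
          rw [hconst 1 l (fun h => hlj h.symm) hl] at hc
          exact hc
    have h3 := relint j _ hF l₁ hjl
    have h2 := top_eq_self h3 hpS hqS
    rw [if_pos hpZ, if_neg (hZ1 q hqS hqp)] at h2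
    norm_num at h2

end

end Helper13.TW
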