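import Pool.Agent.Helper13.TW.Fine

set_option autoImplicit false

/-! Twisted regular subdivisions: regular subdivisions refined by heights which are scaled by the
exponential of the distance. -/

namespace Helper13.TW

open Finset
open Pool.Agent.Helper28.SO (TreeFam TRealized)

variable {n d : ℕ}

/-- the distance from the label `j` to the point `x`, up to the sign -/
noncomputable def dist0 (y : Fin n → Fin d → ℝ) (x : Fin d → ℝ) (j : Fin n) : ℝ :=
  ⨅ c, (y j c - x c)

theorem dist0_eq {y : Fin n → Fin d → ℝ} {x : Fin d → ℝ} {j : Fin n} {c : Fin d}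
    (hc : c ∈ cut (fun _ => univ) y x j) : dist0 y x j = y j c - x c := by
  rw [mem_cut] at hc
  have : Nonempty (Fin d) := ⟨c⟩
  unfold dist0
  apply le_antisymm
  · exact ciInf_le (Set.finite_range _).bddBelow c
  · exact le_ciInf fun c' => hc.2 c' (mem_univ c')

/-- the twisted heights -/
noncomputable def tw (y a : Fin n → Fin d → ℝ) (lam : ℝ) (p : Unit × (Fin d → ℝ)) (j : Fin n)
    (c : Fin d) : ℝ := Real.exp (lam * dist0 y p.2 j) * a j c

theorem compat_tw (y a : Fin n → Fin d → ℝ) (lam : ℝ) :
    Compat (ref (fun (_ : Unit) (_ : Fin n) => (univ : Finset (Fin d))) (fun _ => y))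
      (tw y a lam) := by
  intro p p'
  refine ⟨fun j => Real.exp (lam * (dist0 y p'.2 j - dist0 y p.2 j)),
    fun c => Real.exp (lam * (p.2 c - p'.2 c)), fun _ => 0, fun _ => 0,
    fun _ => Real.exp_pos _, ?_⟩
  intro j c hc hc'
  have e1 := dist0_eq (y := y) (x := p.2) (j := j) (c := c) hc
  have e2 := dist0_eq (y := y) (x := p'.2) (j := j) (c := c) hc'
  constructor
  · show Real.exp (lam * (dist0 y p'.2 j - dist0 y p.2 j)) = Real.exp (lam * (p.2 c - p'.2 c))
    rw [e1, e2]
    congr 1
    ring
  · simp only [tw]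
    rw [← mul_assoc, ← Real.exp_add, add_zero, add_zero]
    congr 2
    ring

/-- **Twisted regular subdivisions.** The labels sit at the points `y k`, ties are resolved by
the displacements `a k`, seen from a distance `M` with the factor `exp (-lam M)`. -/
theorem tRealized_of_twist (hn : 1 ≤ n) (hd : 1 ≤ d) (y a : Fin n → Fin d → ℝ) (lam : ℝ)
    (σ : Fin n → Fin n → Fin d)
    (h1 : ∀ k j, k ≠ j → ∀ c, y k c - y j c ≤ y k (σ k j) - y j (σ k j))
    (h2 : ∀ k j, k ≠ j → ∀ c, c ≠ σ k j → y k c - y j c = y k (σ k j) - y j (σ k j) →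
      a k c - Real.exp (-(lam * (y k (σ k j) - y j (σ k j)))) * a j c <
        a k (σ k j) - Real.exp (-(lam * (y k (σ k j) - y j (σ k j)))) * a j (σ k j))
    (v : Fin n → Fin d → ℕ)
    (hv : ∀ k c, v k c = (univ.filter (fun j => j ≠ k ∧ σ k j = c)).card) :
    TRealized n d v := by
  classical
  have hG := ((coarse_univ (d := d) hn).ref (compat_const _ y)).ref (compat_tw y a lam)
  refine hG.tRealized hn hd (fun k => (((), y k), a k)) σ ?_ ?_ v hv
  · intro k
    ext c
    show c ∈ cut (cut (fun _ => univ) y (y k)) (tw y a lam ((), y k)) (a k) k ↔ c ∈ univ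
    have hk : ∀ c, c ∈ cut (fun _ => (univ : Finset (Fin d))) y (y k) k := by
      intro c
      rw [mem_cut]
      exact ⟨mem_univ c, fun c' _ => by simp⟩
    rw [mem_cut]
    refine ⟨fun _ => mem_univ c, fun _ => ⟨hk c, fun c' _ => ?_⟩⟩
    have e : dist0 y (y k) k = 0 := by rw [dist0_eq (hk c), sub_self]
    simp only [tw, e, mul_zero, Real.exp_zero, one_mul, sub_self, le_refl]
  · intro k j hj
    have hkj : k ≠ j := fun h => hj h.symm
    have hσ : σ k j ∈ cut (fun _ => (univ : Finset (Fin d))) y (y k) j := by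
      rw [mem_cut]
      refine ⟨mem_univ _, fun c' _ => ?_⟩
      have := h1 k j hkj c'
      linarith
    have e : dist0 y (y k) j = y j (σ k j) - y k (σ k j) := dist0_eq hσ
    have e' : lam * dist0 y (y k) j = -(lam * (y k (σ k j) - y j (σ k j))) := by
      rw [e]
      ring
    show cut (cut (fun _ => univ) y (y k)) (tw y a lam ((), y k)) (a k) j = {σ k j}
    have hmin : ∀ c' ∈ cut (fun _ => (univ : Finset (Fin d))) y (y k) j, c' ≠ σ k j →
        tw y a lam ((), y k) j (σ k j) - a k (σ k j) < tw y a lam ((), y k) j c' - a k c' := by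
      intro c' hc' hne
      have h3 := dist0_eq hc'
      rw [e] at h3
      have h4 := h2 k j hkj c' hne (by linarith)
      simp only [tw, e']
      linarith
    ext c
    rw [mem_cut, mem_singleton]
    constructor
    · rintro ⟨hc1, hc2⟩
      by_contra hne
      have := hmin c hc1 hne
      have := hc2 _ hσ
      linarith
    · rintro rfl
      refine ⟨hσ, fun c' hc' => ?_⟩
      by_cases hne : c' = σ k j
      · rw [hne]
      · exact (hmin c' hc' hne).le

end Helper13.TW
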